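import Mathlib

/-!
# NUM: choice of the parameters for large n

`θ = w/k` where `w = k (1-1/k)^u`. For given `K ≥ 1` put `D = K n^(w/k)`, `c0 = (1/(2g))^(g-1)`, `c1 = c0/144`,
`L = ⌊(c1 D)^(1/g)⌋₊`, `Q = ⌊(n/(2g))^(1/k)/2⌋₊`, `J = ⌊Q^κ/(g L)⌋₊`, `p = c0 c1/(16 * 2^g)`.

PROOF. (1) `D ≥ 1` since `K ≥ 1`, `n ≥ 1`, `w ≥ 0`. (2) `(2Q)^k ≤ n/(2g)`. (3) `Q → ∞`, `Q ≥ c n^(1/k)`, `c = (1/(2g))^(1/k)/4`
for large `n`. (4) `8D = 8K n^(w/k) ≤ Q^om` for large `n` since `om > w` (`Q^om ≥ c^om n^(om/k)`, `om > w ≥ 0`).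
(5) `2 (2Q)^om' ≤ n`: `(2Q)^om' ≤ n^(om'/k)` (`om' ≥ 0`; if `om' < 0` it is at most 1), `om' < k`, `n` large.
(6) `c1 D ≥ 1` for large `n` (`w > 0`), so `L ≥ 1`, `L ≥ (c1 D)^(1/g)/2`, hence `c1 D/2^g ≤ L^g ≤ c1 D`, and
`L^g (c0/(8D)) - (L^g)^2 (9/D^2) ≥ L^g (c0/(8D) - 9 c1/D) = L^g c0/(16 D) ≥ c0 c1/(16 2^g) = p`.
(7) `J g L ≤ Q^κ`. (8) `J ≥ Q^κ/(g L) - 1 ≥ c2 n^(κ/k - w/(kg)) - 1`, `L ≤ (c1 D)^(1/g) = (c1 K)^(1/g) n^(w/(kg))`, and
`ε = (κ - w/g)/k > 0`. (9) `(1-p)^J ≤ exp(-pJ) ≤ e exp(-p c2 n^ε)`. `c = p c2`; the factor `e` is in the statement.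
-/

set_option autoImplicit false

open Filter

namespace Pool.H7.PP


private theorem num_floor (x : ℝ) (hx : 1 ≤ x) : x / 2 ≤ (⌊x⌋₊ : ℝ) := by
  have h1 := Nat.lt_floor_add_one x
  have h2 : (1 : ℝ) ≤ (⌊x⌋₊ : ℝ) := by exact_mod_cast Nat.one_le_floor_iff x |>.mpr hx
  linarith

private theorem num_ev (a M : ℝ) (ha : 0 < a) : ∀ᶠ n : ℕ in atTop, M ≤ (n : ℝ) ^ a :=
  ((tendsto_rpow_atTop ha).comp tendsto_natCast_atTop_atTop).eventually_ge_atTop M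

theorem num (k g : ℕ) (hk : 2 ≤ k) (hg : 1 ≤ g) (w κ om om' K : ℝ) (hw : 0 < w) (h1 : w < om) (h2 : om' < k)
    (h3 : w < g * κ) (hK : 1 ≤ K) :
    ∃ c : ℝ, 0 < c ∧ ∃ ε : ℝ, 0 < ε ∧ ∃ p : ℝ, 0 < p ∧ p ≤ 1 ∧ ∀ m0 : ℕ, ∀ᶠ n : ℕ in atTop,
      ∃ Q L J : ℕ, m0 ≤ Q ∧ 2 * g * (2 * Q) ^ k ≤ n ∧ 1 ≤ K * (n : ℝ) ^ (w / k) ∧
        8 * (K * (n : ℝ) ^ (w / k)) ≤ (Q : ℝ) ^ om ∧ 2 * (2 * (Q : ℝ)) ^ om' ≤ n ∧
        ((J * (g * L) : ℕ) : ℝ) ≤ (Q : ℝ) ^ κ ∧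
        p ≤ (L : ℝ) ^ g * ((1 / (2 * (g : ℝ))) ^ (g - 1) / (8 * (K * (n : ℝ) ^ (w / k)))) -
          ((L : ℝ) ^ g) ^ 2 * (9 / (K * (n : ℝ) ^ (w / k)) ^ 2) ∧
        (1 - p) ^ J ≤ Real.exp 1 * Real.exp (-(c * (n : ℝ) ^ ε)) := by
  have hk0 : (0 : ℝ) < k := by exact_mod_cast (by omega : 0 < k)
  have hg0 : (0 : ℝ) < g := by exact_mod_cast hg
  have hg1 : (1 : ℝ) ≤ g := by exact_mod_cast hg
  have hK0 : 0 < K := by linarith
  set b : ℝ := 1 / (4 * g) with hb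
  have hb0 : 0 < b := by positivity
  have hb1 : b ≤ 1 / 4 := by
    rw [hb]
    apply one_div_le_one_div_of_le (by norm_num)
    linarith
  set c0 : ℝ := (1 / (2 * (g : ℝ))) ^ (g - 1) with hc0
  have hc00 : 0 < c0 := by positivity
  have hc01 : c0 ≤ 1 := by
    apply pow_le_one₀ (by positivity)
    rw [div_le_one (by positivity)]
    linarith
  set c1 : ℝ := c0 / 144 with hc1
  have hc10 : 0 < c1 := by positivity
  set p : ℝ := c0 * c1 / (16 * 2 ^ g) with hp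
  have hp0 : 0 < p := by positivity
  have h2g : (1 : ℝ) ≤ 2 ^ g := one_le_pow₀ (by norm_num)
  have hp1 : p ≤ 1 := by
    rw [hp, div_le_one (by positivity)]
    have : c0 * c1 ≤ 1 := by
      rw [hc1]
      nlinarith
    linarith
  set ε : ℝ := (κ - w / g) / k with hε
  have hε0 : 0 < ε := by
    apply div_pos _ hk0
    rw [sub_pos, div_lt_iff₀ hg0]
    linarith
  have hκ0 : 0 < κ := by
    by_contra h
    push Not at h
    nlinarith
  set c2 : ℝ := (b / 2) ^ κ / (g * (c1 * K) ^ (1 / (g : ℝ))) with hc2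
  have hc20 : 0 < c2 := by positivity
  refine ⟨p * c2, by positivity, ε, hε0, p, hp0, hp1, ?_⟩
  intro m0
  have hwk : 0 < w / k := by positivity
  have hinvk : 0 < 1 / (k : ℝ) := by positivity
  -- the eventual conditions
  filter_upwards [num_ev (1 / (k : ℝ)) (max (1 / b) (2 * ((m0 : ℝ) + 1) / b)) hinvk,
    num_ev ((om - w) / k) (8 * K / (b / 2) ^ om) (by apply div_pos _ hk0; linarith),
    num_ev (1 - (max om' 0) / k) 2 (by
      rw [sub_pos, div_lt_one hk0]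
      exact max_lt h2 hk0),
    num_ev (w / k) (1 / (c1 * K)) hwk, eventually_ge_atTop 1] with n e1 e2 e3 e4 e5
  have hn1 : (1 : ℝ) ≤ (n : ℝ) := by exact_mod_cast e5
  have hn0 : (0 : ℝ) < (n : ℝ) := by linarith
  set X : ℝ := (n : ℝ) ^ (1 / (k : ℝ)) with hX
  have hX0 : 0 < X := by positivity
  have hXpow : ∀ a : ℝ, X ^ a = (n : ℝ) ^ (a / k) := by
    intro a
    rw [hX, ← Real.rpow_mul hn0.le]
    congr 1
    ring
  have hbX1 : 1 ≤ b * X := by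
    have := (le_max_left _ _).trans e1
    rw [div_le_iff₀ hb0] at this
    linarith
  set Q : ℕ := ⌊b * X⌋₊ with hQ
  have hQle : (Q : ℝ) ≤ b * X := Nat.floor_le (by positivity)
  have hQge : b * X / 2 ≤ (Q : ℝ) := num_floor _ hbX1
  have hQ1 : (1 : ℝ) ≤ (Q : ℝ) := by exact_mod_cast (Nat.one_le_floor_iff (b * X)).mpr hbX1
  have hQ0 : (0 : ℝ) < (Q : ℝ) := by linarith
  set D : ℝ := K * (n : ℝ) ^ (w / k) with hD
  have hnw1 : 1 ≤ (n : ℝ) ^ (w / k) := Real.one_le_rpow hn1 hwk.le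
  have hD1 : 1 ≤ D := by rw [hD]; nlinarith
  have hD0 : 0 < D := by linarith
  have hcD : 1 ≤ c1 * D := by
    rw [div_le_iff₀ (by positivity)] at e4
    rw [hD]
    linarith
  set Y : ℝ := (c1 * D) ^ (1 / (g : ℝ)) with hY
  have hY1 : 1 ≤ Y := Real.one_le_rpow hcD (by positivity)
  have hYg : Y ^ g = c1 * D := by
    rw [hY, ← Real.rpow_natCast, ← Real.rpow_mul (by positivity), one_div, inv_mul_cancel₀ (by positivity), Real.rpow_one]
  set L : ℕ := ⌊Y⌋₊ with hL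
  have hLle : (L : ℝ) ≤ Y := Nat.floor_le (by positivity)
  have hLge : Y / 2 ≤ (L : ℝ) := num_floor _ hY1
  have hL0 : (0 : ℝ) < (L : ℝ) := by linarith
  have hLg1 : (L : ℝ) ^ g ≤ c1 * D := by
    rw [← hYg]
    exact pow_le_pow_left₀ hL0.le hLle g
  have hLg2 : c1 * D / 2 ^ g ≤ (L : ℝ) ^ g := by
    rw [← hYg, ← div_pow]
    exact pow_le_pow_left₀ (by positivity) hLge g
  have hgL0 : (0 : ℝ) < (g : ℝ) * L := by positivity
  set J : ℕ := ⌊(Q : ℝ) ^ κ / (g * L)⌋₊ with hJ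
  refine ⟨Q, L, J, ?_, ?_, hD1, ?_, ?_, ?_, ?_, ?_⟩
  · have h3 := (le_max_right _ _).trans e1
    rw [div_le_iff₀ hb0] at h3
    have h4 : (m0 : ℝ) ≤ (Q : ℝ) := by linarith
    exact_mod_cast h4
  · have h3 : (2 * (Q : ℝ)) ^ k ≤ (X / (2 * g)) ^ k := by
      apply pow_le_pow_left₀ (by positivity)
      have : X / (2 * g) = 2 * (b * X) := by
        rw [hb]
        field_simp
        ring
      linarith
    have h4 : X ^ k = (n : ℝ) := by
      rw [hX, ← Real.rpow_natCast, ← Real.rpow_mul hn0.le, one_div, inv_mul_cancel₀ hk0.ne', Real.rpow_one]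
    have h5 : (2 * (g : ℝ)) ≤ (2 * (g : ℝ)) ^ k := by
      have : (2 * (g : ℝ)) ^ 1 ≤ (2 * (g : ℝ)) ^ k := pow_le_pow_right₀ (by linarith) (by omega)
      rwa [pow_one] at this
    have h6 : 2 * (g : ℝ) * (2 * (Q : ℝ)) ^ k ≤ n := by
      rw [div_pow, h4] at h3
      calc 2 * (g : ℝ) * (2 * (Q : ℝ)) ^ k ≤ 2 * (g : ℝ) * ((n : ℝ) / (2 * (g : ℝ)) ^ k) :=
            mul_le_mul_of_nonneg_left h3 (by positivity)
        _ = (n : ℝ) * (2 * (g : ℝ) / (2 * (g : ℝ)) ^ k) := by ring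
        _ ≤ (n : ℝ) * 1 := by
            apply mul_le_mul_of_nonneg_left _ hn0.le
            rw [div_le_one (by positivity)]
            exact h5
        _ = n := mul_one _
    exact_mod_cast h6
  · have h3 : (b / 2) ^ om * (n : ℝ) ^ (om / k) ≤ (Q : ℝ) ^ om := by
      rw [← hXpow, ← Real.mul_rpow (by positivity) hX0.le]
      apply Real.rpow_le_rpow (by positivity) _ (by linarith)
      linarith
    refine le_trans ?_ h3
    have h4 : (n : ℝ) ^ (om / k) = (n : ℝ) ^ ((om - w) / k) * (n : ℝ) ^ (w / k) := by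
      rw [← Real.rpow_add hn0]
      congr 1
      ring
    rw [div_le_iff₀ (by positivity)] at e2
    rw [h4, hD]
    have h5 : 0 < (n : ℝ) ^ (w / k) := by positivity
    nlinarith
  · have h3 : (2 * (Q : ℝ)) ^ om' ≤ (2 * (Q : ℝ)) ^ (max om' 0) :=
      Real.rpow_le_rpow_of_exponent_le (by linarith) (le_max_left _ _)
    have h4 : (2 * (Q : ℝ)) ^ (max om' 0) ≤ (n : ℝ) ^ ((max om' 0) / k) := by
      rw [← hXpow]
      apply Real.rpow_le_rpow (by positivity) _ (le_max_right _ _)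
      nlinarith
    have h5 : (n : ℝ) ^ ((max om' 0) / k) * (n : ℝ) ^ (1 - (max om' 0) / k) = n := by
      rw [← Real.rpow_add hn0]
      simp
    have h6 : 0 < (n : ℝ) ^ ((max om' 0) / k) := by positivity
    nlinarith
  · have h3 : (J : ℝ) ≤ (Q : ℝ) ^ κ / (g * L) := Nat.floor_le (by positivity)
    rw [le_div_iff₀ hgL0] at h3
    push_cast
    exact h3
  · have h3 : c1 / 2 ^ g ≤ (L : ℝ) ^ g / D := by
      rw [le_div_iff₀ hD0]
      calc c1 / 2 ^ g * D = c1 * D / 2 ^ g := by ring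
        _ ≤ _ := hLg2
    have h4 : (L : ℝ) ^ g / D ≤ c1 := by
      rw [div_le_iff₀ hD0]
      exact hLg1
    have h5 : (L : ℝ) ^ g * (c0 / (8 * D)) - ((L : ℝ) ^ g) ^ 2 * (9 / D ^ 2) =
        (L : ℝ) ^ g / D * (c0 / 8 - 9 * ((L : ℝ) ^ g / D)) := by
      field_simp
    rw [h5]
    have h6 : c0 / 16 ≤ c0 / 8 - 9 * ((L : ℝ) ^ g / D) := by
      rw [hc1] at h4
      linarith
    calc p = c1 / 2 ^ g * (c0 / 16) := by rw [hp]; field_simp
      _ ≤ (L : ℝ) ^ g / D * (c0 / 8 - 9 * ((L : ℝ) ^ g / D)) :=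
          mul_le_mul h3 h6 (by positivity) (by positivity)
  · have h3 : (Q : ℝ) ^ κ / (g * L) < J + 1 := Nat.lt_floor_add_one _
    have h4 : c2 * (n : ℝ) ^ ε ≤ (Q : ℝ) ^ κ / (g * L) := by
      have h5 : (b / 2) ^ κ * (n : ℝ) ^ (κ / k) ≤ (Q : ℝ) ^ κ := by
        rw [← hXpow, ← Real.mul_rpow (by positivity) hX0.le]
        apply Real.rpow_le_rpow (by positivity) _ hκ0.le
        linarith
      have h6 : (g : ℝ) * L ≤ g * ((c1 * K) ^ (1 / (g : ℝ)) * (n : ℝ) ^ (w / k / g)) := by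
        apply mul_le_mul_of_nonneg_left _ hg0.le
        refine hLle.trans (le_of_eq ?_)
        rw [hY, hD, ← mul_assoc, Real.mul_rpow (by positivity) (by positivity), ← Real.rpow_mul hn0.le]
        congr 2
        ring
      have h7 : (n : ℝ) ^ (κ / k) = (n : ℝ) ^ ε * (n : ℝ) ^ (w / k / g) := by
        rw [← Real.rpow_add hn0]
        congr 1
        rw [hε]
        field_simp
        ring
      rw [le_div_iff₀ hgL0]
      calc c2 * (n : ℝ) ^ ε * (g * L) ≤ c2 * (n : ℝ) ^ ε * (g * ((c1 * K) ^ (1 / (g : ℝ)) * (n : ℝ) ^ (w / k / g))) :=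
            mul_le_mul_of_nonneg_left h6 (by positivity)
        _ = (b / 2) ^ κ * (n : ℝ) ^ (κ / k) := by
            rw [h7, hc2]
            field_simp
        _ ≤ (Q : ℝ) ^ κ := h5
    have h5 : (1 - p) ^ J ≤ Real.exp (-(p * J)) := by
      calc (1 - p) ^ J ≤ (Real.exp (-p)) ^ J :=
            pow_le_pow_left₀ (by linarith) (Real.one_sub_le_exp_neg p) J
        _ = Real.exp (-(p * J)) := by
            rw [← Real.exp_nat_mul]
            congr 1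
            ring
    refine h5.trans ?_
    rw [← Real.exp_add]
    apply Real.exp_le_exp.mpr
    nlinarith

end Pool.H7.PP
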