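import Pool.Agent.H7.PP.Fail
import Pool.Agent.H7.PP.Num

/-!
# BC: almost surely all large n are represented

PROOF. `w = k (1-1/k)^u > 0` (`k ≥ 2`), `w / k = (1-1/k)^u`. `pts` gives `K`; `num` gives `c, ε, p`. By `hZ` and `hR` there is
`m0` such that for `Q ≥ m0`: `Q^κ ≤ card {x ∈ Z, Q < x ≤ 2Q}` and `x^om ≤ R x ≤ x^om'` for `x ∈ Z`, `x > Q`
(`eventually_atTop`). For large `n` take `Q, L, J` of `num` and `A` of `pts` with `D = K n^(w/k)`, `Z0 = {x ∈ Z, Q < x ≤ 2Q}` as a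
finset (filter of `Finset.Ioc Q (2*Q)`, classical): `hc` from `J g L ≤ Q^κ ≤ card`; `hx`: `2 g x^k ≤ 2 g (2Q)^k ≤ n`;
`hR`: `8D ≤ Q^om ≤ x^om ≤ R x` (`om > w > 0`); `hRn`: `2 R x ≤ 2 x^om' ≤ 2 (2Q)^om' ≤ n` (`om' ≥ om > 0` because
`x^om ≤ x^om'` for some `x ≥ 2`; or case `om' < 0`: then `x^om ≤ R x ≤ x^om' < 1`, impossible for large x; simplest: derive
`om ≤ om'` from hR when `Z0` is nonempty, else everything is trivial). `fail` gives `P.real(not Rep n) ≤ (1-p)^J ≤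
e exp(-c n^ε)`, which is summable over `n` (`exp(-c n^ε) ≤ C n^(-2)`: e.g. `Real.isLittleO`/`tendsto` of `t^s exp(-t)`), so
`measure_limsup_cofinite_eq_zero` / `ae_eventually_notMem` (`∑' P{not Rep n} ≠ ∞`) gives the statement.
-/

set_option autoImplicit false

open MeasureTheory ProbabilityTheory Filter

namespace Pool.H7.PP

private theorem bc_summable (c ε : ℝ) (hc : 0 < c) (hε : 0 < ε) :
    Summable (fun n : ℕ => Real.exp 1 * Real.exp (-(c * (n : ℝ) ^ ε))) := by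
  apply Summable.mul_left
  have h1 := (isLittleO_exp_neg_mul_rpow_atTop hc (-2 / ε)).isBigO
  have h2 : Tendsto (fun n : ℕ => (n : ℝ) ^ ε) atTop atTop :=
    (tendsto_rpow_atTop hε).comp tendsto_natCast_atTop_atTop
  have h3 := h1.comp_tendsto h2
  refine summable_of_isBigO_nat (Real.summable_nat_rpow.2 (show (-2 : ℝ) < -1 by norm_num)) ?_
  have e1 : (fun n : ℕ => Real.exp (-(c * (n : ℝ) ^ ε))) =
      (fun x : ℝ => Real.exp (-c * x)) ∘ fun n : ℕ => (n : ℝ) ^ ε := by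
    funext n
    simp only [Function.comp]
    ring_nf
  have e2 : (fun n : ℕ => (n : ℝ) ^ (-2 : ℝ)) =
      (fun x : ℝ => x ^ (-2 / ε)) ∘ fun n : ℕ => (n : ℝ) ^ ε := by
    funext n
    simp only [Function.comp]
    rw [← Real.rpow_mul (Nat.cast_nonneg n)]
    congr 1
    field_simp
  rw [e1, e2]
  exact h3

private theorem bc_fail (k u g : ℕ) (κ om om' : ℝ) (hk : 2 ≤ k)
    (h1 : (k : ℝ) * (1 - 1 / (k : ℝ)) ^ u < om) (h2 : om' < k)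
    (h3 : (k : ℝ) * (1 - 1 / (k : ℝ)) ^ u < g * κ) (Z : Set ℕ)
    (hZ : ∀ᶠ Q : ℕ in atTop, (Q : ℝ) ^ κ ≤ ({x : ℕ | x ∈ Z ∧ Q < x ∧ x ≤ 2 * Q}.ncard : ℝ)) (R : ℕ → ℕ)
    (hR : ∀ᶠ x : ℕ in atTop, x ∈ Z → (x : ℝ) ^ om ≤ R x ∧ (R x : ℝ) ≤ (x : ℝ) ^ om')
    {Ω : Type*} [MeasurableSpace Ω] {P : Measure Ω} {r : ℕ → Ω → ℕ} (hU : Unif P R r) :
    ∃ c : ℝ, 0 < c ∧ ∃ ε : ℝ, 0 < ε ∧ ∀ᶠ n : ℕ in atTop,
      P.real {ω | ¬ Rep k u g Z r n ω} ≤ Real.exp 1 * Real.exp (-(c * (n : ℝ) ^ ε)) := by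
  classical
  have hk0 : (0 : ℝ) < k := by exact_mod_cast (by omega : 0 < k)
  have hθ : 0 < 1 - 1 / (k : ℝ) := by
    have : 1 / (k : ℝ) < 1 := by
      rw [div_lt_one hk0]
      exact_mod_cast (by omega : 1 < k)
    linarith
  set w : ℝ := (k : ℝ) * (1 - 1 / (k : ℝ)) ^ u with hw
  have hw0 : 0 < w := by positivity
  have hwk : w / k = (1 - 1 / (k : ℝ)) ^ u := by
    rw [hw]
    field_simp
  have hg : 1 ≤ g := by
    rcases Nat.eq_zero_or_pos g with h | h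
    · rw [h, Nat.cast_zero, zero_mul] at h3
      linarith
    · exact h
  obtain ⟨K, hK, hpts⟩ := pts k u (by omega)
  obtain ⟨c, hc, ε, hε, p, hp0, hp1, hnum⟩ := num k g hk hg w κ om om' K hw0 h1 h2 h3 hK
  obtain ⟨m1, hm1⟩ := eventually_atTop.1 hZ
  obtain ⟨m2, hm2⟩ := eventually_atTop.1 hR
  refine ⟨c, hc, ε, hε, ?_⟩
  filter_upwards [hnum (max (max m1 m2) 1), eventually_ge_atTop 1] with n hn hn1
  obtain ⟨Q, L, J, hQ, ha, hb, hd, he, hf, hp, hfin⟩ := hn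
  have hQ1 : m1 ≤ Q := (le_max_left _ _).trans ((le_max_left _ _).trans hQ)
  have hQ2 : m2 ≤ Q := (le_max_right _ _).trans ((le_max_left _ _).trans hQ)
  have hQ3 : 1 ≤ Q := (le_max_right _ _).trans hQ
  obtain ⟨A, hA, hF, hM⟩ := hpts n hn1 (K * (n : ℝ) ^ (w / k)) (by rw [hwk])
  set Z0 : Finset ℕ := (Finset.Ioc Q (2 * Q)).filter (fun x => x ∈ Z) with hZ0
  have hmem : ∀ x, x ∈ Z0 ↔ x ∈ Z ∧ Q < x ∧ x ≤ 2 * Q := by
    intro x
    rw [hZ0, Finset.mem_filter, Finset.mem_Ioc]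
    tauto
  have hcard : ({x : ℕ | x ∈ Z ∧ Q < x ∧ x ≤ 2 * Q}.ncard : ℝ) = Z0.card := by
    have : {x : ℕ | x ∈ Z ∧ Q < x ∧ x ≤ 2 * Q} = (Z0 : Set ℕ) := by
      ext x
      rw [Finset.mem_coe, hmem]
      rfl
    rw [this, Set.ncard_coe_finset]
  have hcJ : J * (g * L) ≤ Z0.card := by
    have h4 := (hf.trans (hm1 Q hQ1)).trans_eq hcard
    exact_mod_cast h4
  have hRx : ∀ x ∈ Z0, (x : ℝ) ^ om ≤ R x ∧ (R x : ℝ) ≤ (x : ℝ) ^ om' := by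
    intro x hx
    obtain ⟨hx1, hx2, hx3⟩ := (hmem x).1 hx
    exact hm2 x (by omega) hx1
  refine (fail hU k u g L J n hg (K * (n : ℝ) ^ (w / k)) p hb hp1 A hA hF hM Z Z0
    (fun x hx => ((hmem x).1 hx).1) hcJ ?_ ?_ ?_ hp).trans hfin
  · intro x hx
    obtain ⟨hx1, hx2, hx3⟩ := (hmem x).1 hx
    exact (Nat.mul_le_mul_left _ (Nat.pow_le_pow_left hx3 k)).trans ha
  · intro x hx
    obtain ⟨hx1, hx2, hx3⟩ := (hmem x).1 hx
    refine hd.trans (le_trans ?_ (hRx x hx).1)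
    exact Real.rpow_le_rpow (Nat.cast_nonneg _) (by exact_mod_cast hx2.le) (by linarith)
  · intro x hx
    obtain ⟨hx1, hx2, hx3⟩ := (hmem x).1 hx
    obtain ⟨h4, h5⟩ := hRx x hx
    have hx4 : (1 : ℝ) < x := by exact_mod_cast (by omega : 1 < x)
    have hom : om ≤ om' := (Real.rpow_le_rpow_left_iff hx4).1 (h4.trans h5)
    have h6 : (x : ℝ) ^ om' ≤ (2 * (Q : ℝ)) ^ om' :=
      Real.rpow_le_rpow (Nat.cast_nonneg _) (by exact_mod_cast hx3) (by linarith)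
    have h7 : 2 * (R x : ℝ) ≤ n := by linarith
    exact_mod_cast h7

theorem bc (k u g : ℕ) (κ om om' : ℝ) (hk : 2 ≤ k)
    (h1 : (k : ℝ) * (1 - 1 / (k : ℝ)) ^ u < om) (h2 : om' < k)
    (h3 : (k : ℝ) * (1 - 1 / (k : ℝ)) ^ u < g * κ) (Z : Set ℕ)
    (hZ : ∀ᶠ Q : ℕ in atTop, (Q : ℝ) ^ κ ≤ ({x : ℕ | x ∈ Z ∧ Q < x ∧ x ≤ 2 * Q}.ncard : ℝ)) (R : ℕ → ℕ)
    (hR : ∀ᶠ x : ℕ in atTop, x ∈ Z → (x : ℝ) ^ om ≤ R x ∧ (R x : ℝ) ≤ (x : ℝ) ^ om')
    {Ω : Type*} [MeasurableSpace Ω] {P : Measure Ω} {r : ℕ → Ω → ℕ} (hU : Unif P R r) :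
    ∀ᵐ ω ∂P, ∀ᶠ n : ℕ in atTop, Rep k u g Z r n ω := by
  classical
  haveI := hU.prob
  obtain ⟨c, hc, ε, hε, hev⟩ := bc_fail k u g κ om om' hk h1 h2 h3 Z hZ R hR hU
  obtain ⟨N, hN⟩ := eventually_atTop.1 hev
  set b : ℕ → ℝ := fun n => (if n < N then 1 else 0) + Real.exp 1 * Real.exp (-(c * (n : ℝ) ^ ε))
    with hb
  have hbs : Summable b := by
    refine Summable.add ?_ (bc_summable c ε hc hε)
    refine summable_of_ne_finset_zero (s := Finset.range N) fun n hn => ?_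
    rw [Finset.mem_range] at hn
    rw [if_neg hn]
  have hb0 : ∀ n, 0 ≤ b n := fun n => by
    rw [hb]
    dsimp only
    split_ifs <;> positivity
  have hle : ∀ n, P {ω | ¬ Rep k u g Z r n ω} ≤ ENNReal.ofReal (b n) := by
    intro n
    rw [← ofReal_measureReal]
    apply ENNReal.ofReal_le_ofReal
    rw [hb]
    dsimp only
    split_ifs with hn
    · have h4 : P.real {ω | ¬ Rep k u g Z r n ω} ≤ 1 := measureReal_le_one
      have h5 : 0 ≤ Real.exp 1 * Real.exp (-(c * (n : ℝ) ^ ε)) := by positivity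
      linarith
    · rw [zero_add]
      exact hN n (not_lt.1 hn)
  have hsum : ∑' n, P {ω | ¬ Rep k u g Z r n ω} ≠ ⊤ := by
    refine ne_top_of_le_ne_top ?_ (ENNReal.tsum_le_tsum hle)
    rw [← ENNReal.ofReal_tsum_of_nonneg hb0 hbs]
    exact ENNReal.ofReal_ne_top
  filter_upwards [ae_eventually_notMem hsum] with ω hω
  filter_upwards [hω] with n hn
  by_contra h4
  exact hn h4

end Pool.H7.PP
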