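import Mathlib

/-!
# BON: the first two Bonferroni terms

PROOF. Induction on the finset: `P(A ∪ E) = P(A) + P(E) - P(A ∩ E)` and `P(A ∩ E) ≤ ∑_{i ∈ s} P(E i ∩ E)`. So
`P(⋃) ≥ n a - (n choose 2) b ≥ n a - n^2 b`, `n = s.card`.
-/

set_option autoImplicit false

open MeasureTheory

namespace Pool.H7.PP

theorem bonf {Ω ι : Type*} [MeasurableSpace Ω] (P : Measure Ω) [IsProbabilityMeasure P] (s : Finset ι)
    (E : ι → Set Ω) (hE : ∀ i ∈ s, MeasurableSet (E i)) (a b : ℝ) (hb0 : 0 ≤ b)
    (ha : ∀ i ∈ s, a ≤ P.real (E i))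
    (hb : ∀ i ∈ s, ∀ j ∈ s, i ≠ j → P.real (E i ∩ E j) ≤ b) :
    (s.card : ℝ) * a - (s.card : ℝ) ^ 2 * b ≤ P.real (⋃ i ∈ s, E i) := by
  classical
  induction s using Finset.induction_on with
  | empty => simp
  | insert c s hc ih =>
    have ih' := ih (fun i hi => hE i (Finset.mem_insert_of_mem hi))
      (fun i hi => ha i (Finset.mem_insert_of_mem hi))
      (fun i hi j hj => hb i (Finset.mem_insert_of_mem hi) j (Finset.mem_insert_of_mem hj))
    rw [Finset.set_biUnion_insert, Finset.card_insert_of_notMem hc]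
    set A := ⋃ i ∈ s, E i with hA
    have hAm : MeasurableSet A := Finset.measurableSet_biUnion s (fun i hi => hE i (Finset.mem_insert_of_mem hi))
    have h1 : P.real (E c ∪ A) + P.real (E c ∩ A) = P.real (E c) + P.real A :=
      measureReal_union_add_inter hAm (measure_ne_top P _) (measure_ne_top P _)
    have h2 : P.real (E c ∩ A) ≤ (s.card : ℝ) * b := by
      rw [hA, Set.inter_iUnion₂]
      refine (measureReal_biUnion_finset_le s _).trans ?_
      rw [← nsmul_eq_mul]
      refine Finset.sum_le_card_nsmul _ _ _ fun i hi => ?_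
      exact hb c (Finset.mem_insert_self _ _) i (Finset.mem_insert_of_mem hi)
        (fun h => hc (h ▸ hi))
    have h3 := ha c (Finset.mem_insert_self _ _)
    push_cast
    have h4 : (0 : ℝ) ≤ s.card := by positivity
    nlinarith

end Pool.H7.PP
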