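import Pool.Agent.H7.PP.One

/-!
# LOW: lower bound for the probability that the sum of g variables lies in S

PROOF. Write `M = R (x i)`. `F = (Finset.univ.image x).erase (x i)`, `B = {y : F → ℕ | ∀ w, 2 g y w ≤ M}`,
`s y = ∑_{j ≠ i} y (x j)` (as in PAIR). For `y ∈ B`: `2 g s y ≤ (g-1) M`, so `2 s y ≤ M`, hence `s y ≤ c ≤ M ≤ s y + M`
for `c ∈ S` and `one_ge` gives `q = card S / (M+1) ≤ P(r (x i) + s y ∈ S)`. `le_cond`: the left side is
`q P(∀ j ≠ i, 2 g r (x j) ≤ M)`. By independence (`iIndepFun.meas_biInter` or induction) this probability is the product over the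
at most `g - 1` indices `w ∈ F` of `P(2 g r w ≤ M) ≥ 1/(2g)`: if `R w ≤ M/(2g)` the probability is 1 (`one_zero`), else the
`⌊M/(2g)⌋ + 1` values `v ≤ M/(2g)` are `≤ R w` and give `(⌊M/(2g)⌋ + 1)/(R w + 1) ≥ ((M+1)/(2g))/(M+1)` (`R w ≤ M`).
`F.card = g - 1`.
-/

set_option autoImplicit false

open MeasureTheory ProbabilityTheory

namespace Pool.H7.PP

private theorem low_one {Ω : Type*} [MeasurableSpace Ω] {P : Measure Ω} {R : ℕ → ℕ} {r : ℕ → Ω → ℕ}
    (hU : Unif P R r) {g : ℕ} (hg : 1 ≤ g) (w M : ℕ) (hw : R w ≤ M) :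
    1 / (2 * (g : ℝ)) ≤ P.real {ω | 2 * g * r w ω ≤ M} := by
  have hprob := hU.prob
  have hg0 : (0 : ℝ) < g := by exact_mod_cast hg
  set t := M / (2 * g) with ht
  have h1 := one_ge hU w (Finset.range (min t (R w) + 1)) 0 (by
    intro c hc
    rw [Finset.mem_range] at hc
    omega)
  have h2 : {ω | r w ω + 0 ∈ Finset.range (min t (R w) + 1)} ⊆ {ω | 2 * g * r w ω ≤ M} := by
    intro ω hω
    rw [Set.mem_ofPred_eq, Finset.mem_range] at hω
    rw [Set.mem_ofPred_eq]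
    have h3 : r w ω ≤ M / (2 * g) := by omega
    calc 2 * g * r w ω ≤ 2 * g * (M / (2 * g)) := Nat.mul_le_mul_left _ h3
      _ ≤ M := Nat.mul_div_le M (2 * g)
  refine le_trans ?_ (h1.trans (measureReal_mono h2))
  rw [Finset.card_range, div_le_div_iff₀ (by positivity) (by positivity)]
  rcases le_total (R w) t with h | h
  · rw [min_eq_right h]
    push_cast
    have h4 : (1 : ℝ) ≤ 2 * (g : ℝ) := by
      have : (1 : ℝ) ≤ g := by exact_mod_cast hg
      linarith
    have h5 : (0 : ℝ) ≤ (R w : ℝ) + 1 := by positivity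
    nlinarith
  · rw [min_eq_left h]
    have h4 : M < 2 * g * (t + 1) := by
      rw [ht]
      exact Nat.lt_mul_div_succ M (by omega)
    have h5 : R w + 1 ≤ (t + 1) * (2 * g) := by
      rw [mul_comm (t + 1)]
      omega
    have h6 : ((R w + 1 : ℕ) : ℝ) ≤ (((t + 1) * (2 * g) : ℕ) : ℝ) := by exact_mod_cast h5
    push_cast at h6 ⊢
    linarith

theorem low {Ω : Type*} [MeasurableSpace Ω] {P : Measure Ω} {R : ℕ → ℕ} {r : ℕ → Ω → ℕ} (hU : Unif P R r)
    {g : ℕ} (hg : 1 ≤ g) (x : Fin g → ℕ) (hx : Function.Injective x) (i : Fin g)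
    (hmax : ∀ j, R (x j) ≤ R (x i)) (S : Finset ℕ) (hS : ∀ c ∈ S, R (x i) ≤ 2 * c ∧ c ≤ R (x i)) :
    (1 / (2 * (g : ℝ))) ^ (g - 1) * ((S.card : ℝ) / ((R (x i) : ℝ) + 1)) ≤ P.real {ω | ∑ j, r (x j) ω ∈ S} := by
  have hprob := hU.prob
  set F := (Finset.univ.image x).erase (x i) with hF
  have hz : x i ∉ F := Finset.notMem_erase _ _
  have hFc : F.card = g - 1 := by
    rw [hF, Finset.card_erase_of_mem (Finset.mem_image_of_mem _ (Finset.mem_univ _)),
      Finset.card_image_of_injective _ hx, Finset.card_univ, Fintype.card_fin]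
  have hFR : ∀ w ∈ F, R w ≤ R (x i) := by
    intro w hw
    rw [hF, Finset.mem_erase, Finset.mem_image] at hw
    obtain ⟨-, j, -, rfl⟩ := hw
    exact hmax j
  have hsum : ∀ ω, ∑ j, r (x j) ω = r (x i) ω + ∑ w : F, r w ω := by
    intro ω
    have h1 : ∑ j, r (x j) ω = ∑ w ∈ Finset.univ.image x, r w ω := by
      rw [Finset.sum_image (fun a _ b _ h => hx h)]
    rw [h1, ← Finset.add_sum_erase _ _ (Finset.mem_image_of_mem x (Finset.mem_univ i)), ← hF,
      ← Finset.sum_coe_sort F (fun w => r w ω)]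
  set B : Set (F → ℕ) := {y | ∀ w, 2 * g * y w ≤ R (x i)} with hB
  set s : (F → ℕ) → ℕ := fun y => ∑ w, y w with hs
  have hq : ∀ y ∈ B, (S.card : ℝ) / ((R (x i) : ℝ) + 1) ≤ P.real {ω | r (x i) ω + s y ∈ S} := by
    intro y hy
    refine one_ge hU (x i) S (s y) fun c hc => ?_
    have h1 : 2 * g * s y ≤ g * R (x i) := by
      calc 2 * g * s y = ∑ w, 2 * g * y w := by rw [hs, Finset.mul_sum]
        _ ≤ ∑ _w : F, R (x i) := Finset.sum_le_sum fun w _ => hy w
        _ = F.card * R (x i) := by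
            rw [Finset.sum_const, Finset.card_univ, Fintype.card_coe, smul_eq_mul]
        _ ≤ g * R (x i) := Nat.mul_le_mul_right _ (by omega)
    have h2 : g * (2 * s y) ≤ g * R (x i) := by
      calc g * (2 * s y) = 2 * g * s y := by ring
        _ ≤ g * R (x i) := h1
    have h3 := Nat.le_of_mul_le_mul_left h2 (by omega)
    have h4 := hS c hc
    omega
  have h1 := le_cond hU (x i) F hz s B S _ hq
  have h2 : P.real {ω | r (x i) ω + s (fun w => r w ω) ∈ S ∧ (fun w : F => r w ω) ∈ B} ≤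
      P.real {ω | ∑ j, r (x j) ω ∈ S} := by
    refine measureReal_mono fun ω hω => ?_
    rw [Set.mem_ofPred_eq] at hω ⊢
    rw [hsum ω]
    exact hω.1
  have h3 : (1 / (2 * (g : ℝ))) ^ (g - 1) ≤ P.real {ω | (fun w : F => r w ω) ∈ B} := by
    have h4 : {ω | (fun w : F => r w ω) ∈ B} = ⋂ w ∈ F, r w ⁻¹' {v | 2 * g * v ≤ R (x i)} := by
      ext ω
      simp only [hB, Set.mem_ofPred_eq, Set.mem_iInter, Set.mem_preimage]
      exact ⟨fun h w hw => h ⟨w, hw⟩, fun h w => h w w.2⟩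
    rw [h4, Measure.real, hU.indep.measure_inter_preimage_eq_mul F (fun w _ => MeasurableSet.of_discrete),
      ENNReal.toReal_prod]
    rw [← hFc, ← Finset.prod_const]
    exact Finset.prod_le_prod (fun _ _ => by positivity) fun w hw =>
      low_one hU hg w (R (x i)) (hFR w hw)
  have h5 : (0 : ℝ) ≤ (S.card : ℝ) / ((R (x i) : ℝ) + 1) := by positivity
  calc (1 / (2 * (g : ℝ))) ^ (g - 1) * ((S.card : ℝ) / ((R (x i) : ℝ) + 1))
      ≤ P.real {ω | (fun w : F => r w ω) ∈ B} * ((S.card : ℝ) / ((R (x i) : ℝ) + 1)) :=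
        mul_le_mul_of_nonneg_right h3 h5
    _ ≤ _ := by rw [mul_comm]; exact h1.trans h2

end Pool.H7.PP
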