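import Pool.Agent.H7.PP.Pair
import Pool.Agent.H7.PP.Low
import Pool.Agent.H7.PP.Bon

/-!
# BLK: one block of g L indices

PROOF. `bonf` on `s = Finset.univ : Finset (Fin g → Fin L)` (card `L^g`), `E l = {ω | ∑ j, r (e (j, l j)) ω ∈ S l}`.
Lower bound `a`: `low` with the index `i` of `hS`: `c0 card(S l)/(M+1) ≥ c0 (M/(4D))/(M+1) ≥ c0/(8D)` since `M ≥ 1`
(`c0 = (1/(2g))^(g-1)`). Upper bound `b = (3/D)^2 = 9/D^2`: for `l ≠ l'` take `i` with `l i ≠ l' i`; `x j = e (j, l j)`,
`x' j = e (j, l' j)`; `x' j ≠ x i` for all `j` by injectivity of `e` (`(j, l' j) = (i, l i)` forces `j = i`, `l' i = l i`).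
-/

set_option autoImplicit false

open MeasureTheory ProbabilityTheory

namespace Pool.H7.PP

theorem block {Ω : Type*} [MeasurableSpace Ω] {P : Measure Ω} {R : ℕ → ℕ} {r : ℕ → Ω → ℕ} (hU : Unif P R r)
    (g L : ℕ) (hg : 1 ≤ g) (e : Fin g × Fin L → ℕ) (he : Function.Injective e) (D : ℝ) (hD : 1 ≤ D)
    (hR : ∀ q, 8 * D ≤ R (e q)) (S : (Fin g → Fin L) → Finset ℕ) (hF : ∀ l, Few D (S l))
    (hS : ∀ l, ∃ i, (∀ j, R (e (j, l j)) ≤ R (e (i, l i))) ∧
      (∀ c ∈ S l, R (e (i, l i)) ≤ 2 * c ∧ c ≤ R (e (i, l i))) ∧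
      (R (e (i, l i)) : ℝ) / (4 * D) ≤ ((S l).card : ℝ)) :
    (L : ℝ) ^ g * ((1 / (2 * (g : ℝ))) ^ (g - 1) / (8 * D)) - ((L : ℝ) ^ g) ^ 2 * (9 / D ^ 2) ≤
      P.real {ω | ∃ l : Fin g → Fin L, ∑ j, r (e (j, l j)) ω ∈ S l} := by
  classical
  have hprob := hU.prob
  have hD0 : 0 < D := by linarith
  have hinj : ∀ l : Fin g → Fin L, Function.Injective (fun j => e (j, l j)) := by
    intro l a b h
    have := he h
    exact congrArg Prod.fst this
  have hmeas : ∀ l : Fin g → Fin L, MeasurableSet {ω | ∑ j, r (e (j, l j)) ω ∈ S l} := by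
    intro l
    have h1 : Measurable (fun ω => ∑ j, r (e (j, l j)) ω) :=
      Finset.measurable_sum _ (fun j _ => hU.meas _)
    exact h1 (MeasurableSet.of_discrete (s := (S l : Set ℕ)))
  have h := bonf P (Finset.univ : Finset (Fin g → Fin L)) (fun l => {ω | ∑ j, r (e (j, l j)) ω ∈ S l})
    (fun l _ => hmeas l) ((1 / (2 * (g : ℝ))) ^ (g - 1) / (8 * D)) (9 / D ^ 2) (by positivity)
    (fun l _ => by
      obtain ⟨i, h1, h2, h3⟩ := hS l
      have h4 := low hU hg (fun j => e (j, l j)) (hinj l) i h1 (S l) h2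
      refine le_trans ?_ h4
      rw [div_eq_mul_one_div]
      have hM : (1 : ℝ) ≤ R (e (i, l i)) := by linarith [hR (i, l i)]
      have h5 : 1 / (8 * D) ≤ ((S l).card : ℝ) / ((R (e (i, l i)) : ℝ) + 1) := by
        rw [div_le_div_iff₀ (by positivity) (by positivity)]
        rw [div_le_iff₀ (by positivity)] at h3
        nlinarith
      gcongr)
    (fun l _ l' _ hl => by
      obtain ⟨i, hi⟩ : ∃ i, l i ≠ l' i := by
        by_contra hcon
        push Not at hcon
        exact hl (funext hcon)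
      have h1 := pair_le hU (fun j => e (j, l j)) (fun j => e (j, l' j)) (hinj l) (hinj l') i
        (fun j hj => by
          have := he hj
          rw [Prod.mk.injEq] at this
          obtain ⟨h2, h3⟩ := this
          subst h2
          exact hi h3.symm) D hD (by linarith [hR (i, l i)]) (by linarith [hR (i, l' i)]) (S l) (S l')
        (hF l) (hF l')
      refine le_trans (le_of_eq ?_) (h1.trans (le_of_eq ?_))
      · rfl
      · rw [div_pow]
        norm_num)
  have hcard : ((Finset.univ : Finset (Fin g → Fin L)).card : ℝ) = (L : ℝ) ^ g := by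
    rw [Finset.card_univ, Fintype.card_fun, Fintype.card_fin, Fintype.card_fin]
    push_cast
    rfl
  rw [hcard] at h
  refine h.trans (le_of_eq ?_)
  congr 1
  ext ω
  simp

end Pool.H7.PP
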