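import Mathlib

/-!
# T2 of MP_efcac8_nt (perturbed powers): definitions

`w = k (1-1/k)^u`; `D = K n^((1-1/k)^u)` is the spacing of the chosen sums of `u` genuine `k`-th powers up to `n`.
The set `A` of chosen sums is a `Net D n`: about one element in each interval of length `D`.
The random variables `r x`, `x : ℕ`, are independent, `r x` is uniform on `{0, .., R x}`.

Modules: PTS (net of sums of `u` powers), ONE (one variable, conditioning), PAIR (two tuples), LOW (lower bound),
BON (Bonferroni), BLK (one block), IND (independence of the blocks), NUM (parameters), FAIL (one `n`), BC (Borel-Cantelli),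
DET (deterministic corollary, existence of the probability space).
-/

set_option autoImplicit false

open MeasureTheory ProbabilityTheory

namespace Pool.H7.PP

/-- `n` is a sum of `u` genuine `k`-th powers of natural numbers -/
def IsPw (k u n : ℕ) : Prop := ∃ y : Fin u → ℕ, n = ∑ i, y i ^ k

/-- number of elements of `A` in `[a, b)` -/
def cnt (A : Finset ℕ) (a b : ℕ) : ℕ := (A.filter (fun c => a ≤ c ∧ c < b)).card

/-- at most about one element in an interval of length `D` -/
def Few (D : ℝ) (A : Finset ℕ) : Prop := ∀ a b : ℕ, a ≤ b → (cnt A a b : ℝ) ≤ ((b : ℝ) - a) / D + 2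

/-- at least about one element in an interval of length `D` inside `[0, n]` -/
def Many (D : ℝ) (n : ℕ) (A : Finset ℕ) : Prop :=
  ∀ a b : ℕ, a ≤ b → b ≤ n → ((b : ℝ) - a) / D - 2 ≤ cnt A a b

/-- independent random variables, `r x` uniform on `{0, .., R x}` -/
structure Unif {Ω : Type*} [MeasurableSpace Ω] (P : Measure Ω) (R : ℕ → ℕ) (r : ℕ → Ω → ℕ) : Prop where
  prob : IsProbabilityMeasure P
  meas : ∀ x, Measurable (r x)
  indep : iIndepFun r P
  unif : ∀ x v, v ≤ R x → P.real {ω | r x ω = v} = 1 / ((R x : ℝ) + 1)

end Pool.H7.PP
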