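import Pool.Agent.H7.PP.Defs

/-!
# DET: a probability space with the required random variables, values at most R x everywhere

PROOF. `Ω = ∀ x : ℕ, Fin (R x + 1)`, `P = Measure.infinitePi (fun x => uniform measure on Fin (R x + 1))` (e.g.
`(PMF.uniformOfFintype (Fin (R x + 1))).toMeasure`), `r x ω = (ω x : ℕ)`. Independence: `iIndepFun_infinitePi` (file
Mathlib/Probability/Independence/InfinitePi) composed with the measurable maps `Fin.val`; law: `infinitePi_map_eval`/
`Measure.infinitePi` of a cylinder: `P(ω x = v) = 1/(R x + 1)` for `v ≤ R x`.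
-/

set_option autoImplicit false

open MeasureTheory ProbabilityTheory

namespace Pool.H7.PP

theorem det (R : ℕ → ℕ) : ∃ (Ω : Type) (_ : MeasurableSpace Ω) (P : Measure Ω) (r : ℕ → Ω → ℕ),
    Unif P R r ∧ ∀ x ω, r x ω ≤ R x := by
  have hX : ∀ x : ℕ, Measurable (fun v : Fin (R x + 1) => (v : ℕ)) := fun x => measurable_from_top
  refine ⟨∀ x : ℕ, Fin (R x + 1), inferInstance,
    Measure.infinitePi (fun x => (PMF.uniformOfFintype (Fin (R x + 1))).toMeasure),
    fun x ω => (ω x : ℕ), ⟨inferInstance, ?_, ?_, ?_⟩, ?_⟩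
  · intro x
    exact (hX x).comp (measurable_pi_apply x)
  · exact iIndepFun_infinitePi hX
  · intro x v hv
    have hms : MeasurableSet {w : Fin (R x + 1) | (w : ℕ) = v} := MeasurableSet.of_discrete
    have h1 : (Measure.infinitePi (fun x => (PMF.uniformOfFintype (Fin (R x + 1))).toMeasure))
        {ω : ∀ x : ℕ, Fin (R x + 1) | (ω x : ℕ) = v} =
        (PMF.uniformOfFintype (Fin (R x + 1))).toMeasure {w : Fin (R x + 1) | (w : ℕ) = v} := by
      have h2 := Measure.infinitePi_map_eval
        (fun x => (PMF.uniformOfFintype (Fin (R x + 1))).toMeasure) x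
      rw [← h2, Measure.map_apply (measurable_pi_apply x) hms]
      rfl
    rw [Measure.real, h1]
    have h3 : {w : Fin (R x + 1) | (w : ℕ) = v} = {⟨v, Nat.lt_succ_of_le hv⟩} := by
      ext w
      simp [Fin.ext_iff]
    rw [h3, PMF.toMeasure_apply_singleton _ _ (MeasurableSet.of_discrete), PMF.uniformOfFintype_apply]
    rw [Fintype.card_fin, ENNReal.toReal_inv, ENNReal.toReal_natCast]
    push_cast
    rw [one_div]
  · intro x ω
    exact Nat.lt_succ_iff.1 (ω x).2

end Pool.H7.PP
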