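import Pool.Agent.H7.PP.Defs

/-!
# IND: the blocks are independent

PROOF. Let `E j = {ω | ∃ l, ∑ i, r (e j (i, l i)) ω ∈ S j l}` and `F j = Finset.univ.image (e j)`; the `F j` are pairwise
disjoint by injectivity. `E j` is the preimage of a set of `F j → ℕ` under `ω ↦ (fun w : F j => r w ω)` (discrete space, all
sets measurable). Independence: `iIndepFun.finsets_comp` (Mathlib, file Probability/Independence/Basic or Kernel) or induction
on the number of blocks with `iIndepFun.indepFun_finset (⋃ of the first blocks) (F j)`: `P(⋂_{j<m+1} (E j)ᶜ) =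
P(⋂_{j<m} (E j)ᶜ) P((E m)ᶜ) ≤ (1-p)^m (1-p)`. The event of the statement is `⋂ j, (E j)ᶜ`.
-/

set_option autoImplicit false

open MeasureTheory ProbabilityTheory

namespace Pool.H7.PP

theorem blocks_aux {Ω : Type*} [MeasurableSpace Ω] {P : Measure Ω} {R : ℕ → ℕ} {r : ℕ → Ω → ℕ} (hU : Unif P R r)
    (J : ℕ) (F : Fin J → Finset ℕ) (hF : ∀ i j, i ≠ j → Disjoint (F i) (F j))
    (B : ∀ j, Set (F j → ℕ)) (p : ℝ) (hp1 : p ≤ 1)
    (hp : ∀ j, p ≤ P.real {ω | (fun w : F j => r w ω) ∈ B j}) (s : Finset (Fin J)) :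
    P.real {ω | ∀ j ∈ s, (fun w : F j => r w ω) ∉ B j} ≤ (1 - p) ^ s.card := by
  classical
  have hprob := hU.prob
  induction s using Finset.induction_on with
  | empty => simp
  | insert c s hc ih =>
    rw [Finset.card_insert_of_notMem hc, pow_succ]
    have hd : Disjoint (s.biUnion F) (F c) := by
      rw [Finset.disjoint_biUnion_left]
      intro i hi
      exact hF i c (fun h => hc (h ▸ hi))
    have hI := hU.indep.indepFun_finset (s.biUnion F) (F c) hd hU.meas
    set G : Set (↥(s.biUnion F) → ℕ) :=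
      {y | ∀ j, ∀ hj : j ∈ s, (fun w : F j => y ⟨w, Finset.mem_biUnion.2 ⟨j, hj, w.2⟩⟩) ∉ B j} with hG
    have h1 : P.real {ω | ∀ j ∈ insert c s, (fun w : F j => r w ω) ∉ B j} =
        P.real {ω | ∀ j ∈ s, (fun w : F j => r w ω) ∉ B j} *
          P.real {ω | (fun w : F c => r w ω) ∉ B c} := by
      have h2 := hI.measure_inter_preimage_eq_mul G (B c)ᶜ MeasurableSet.of_discrete MeasurableSet.of_discrete
      have h3 : {ω | ∀ j ∈ insert c s, (fun w : F j => r w ω) ∉ B j} =
          (fun a (i : (s.biUnion F : Finset ℕ)) => r i a) ⁻¹' G ∩ (fun a (i : F c) => r i a) ⁻¹' (B c)ᶜ := by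
        ext ω
        simp only [Set.mem_ofPred_eq, Finset.mem_insert, forall_eq_or_imp, Set.mem_inter_iff,
          Set.mem_preimage, Set.mem_compl_iff]
        exact and_comm
      rw [Measure.real, Measure.real, Measure.real, h3, h2, ENNReal.toReal_mul]
      rfl
    rw [h1]
    have h4 : P.real {ω | (fun w : F c => r w ω) ∉ B c} ≤ 1 - p := by
      have hm : MeasurableSet {ω | (fun w : F c => r w ω) ∈ B c} := by
        have hY : Measurable (fun ω (w : F c) => r w ω) := measurable_pi_lambda _ (fun w => hU.meas w)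
        exact hY (MeasurableSet.of_discrete (s := B c))
      have h5 := probReal_compl_eq_one_sub (μ := P) hm
      have h6 : {ω | (fun w : F c => r w ω) ∈ B c}ᶜ = {ω | (fun w : F c => r w ω) ∉ B c} := rfl
      rw [h6] at h5
      rw [h5]
      linarith [hp c]
    exact mul_le_mul ih h4 measureReal_nonneg (pow_nonneg (by linarith) _)

theorem blocks {Ω : Type*} [MeasurableSpace Ω] {P : Measure Ω} {R : ℕ → ℕ} {r : ℕ → Ω → ℕ} (hU : Unif P R r)
    (g L J : ℕ) (e : Fin J → Fin g × Fin L → ℕ)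
    (he : Function.Injective (fun q : Fin J × (Fin g × Fin L) => e q.1 q.2))
    (S : Fin J → (Fin g → Fin L) → Finset ℕ) (p : ℝ) (hp1 : p ≤ 1)
    (hp : ∀ j, p ≤ P.real {ω | ∃ l : Fin g → Fin L, ∑ i, r (e j (i, l i)) ω ∈ S j l}) :
    P.real {ω | ∀ (j : Fin J) (l : Fin g → Fin L), ∑ i, r (e j (i, l i)) ω ∉ S j l} ≤ (1 - p) ^ J := by
  classical
  set F : Fin J → Finset ℕ := fun j => Finset.univ.image (e j) with hF
  have hmem : ∀ j q, e j q ∈ F j := fun j q => Finset.mem_image_of_mem _ (Finset.mem_univ _)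
  have hd : ∀ i j, i ≠ j → Disjoint (F i) (F j) := by
    intro i j hij
    rw [Finset.disjoint_left]
    intro w h1 h2
    obtain ⟨q, -, hq⟩ := Finset.mem_image.1 h1
    obtain ⟨q', -, hq'⟩ := Finset.mem_image.1 h2
    have := @he (i, q) (j, q') (by
      show e i q = e j q'
      rw [hq, hq'])
    exact hij (congrArg Prod.fst this)
  have h := blocks_aux hU J F hd
    (fun j => {y | ∃ l : Fin g → Fin L, ∑ i, y ⟨e j (i, l i), hmem j _⟩ ∈ S j l}) p hp1 (fun j => hp j)
    Finset.univ
  rw [Finset.card_univ, Fintype.card_fin] at h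
  refine le_trans (le_of_eq ?_) h
  congr 1
  ext ω
  simp

end Pool.H7.PP
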