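import Pool.Agent.H7.PP.Defs

/-!
# SL: the set of admissible values of the perturbation sum

For a net `A` up to `n` and `M ≤ m ≤ n` the set `S = {c ∈ [⌈M/2⌉, M] : m - c ∈ A}`.

PROOF. `S = (Finset.range (M+1)).filter (fun c => M ≤ 2 * c ∧ m - c ∈ A)`. The map `c ↦ m - c` is injective on `c ≤ m`, so
`cnt S a b ≤ cnt A (m + 1 - b') (m + 1 - a)` with `b' = min b (m+1)` (`a ≤ c < b`, `c ≤ m` give `m + 1 - b' ≤ m - c < m + 1 - a`
for `a ≤ m`; for `a > m` there is no such `c`), which is at most `(b' - a)/D + 2 ≤ (b - a)/D + 2`.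
Number: `c` runs over the integers with `M ≤ 2c`, `c ≤ M`, i.e. `m - c ∈ [m - M, m - (M+1)/2 + 1)` (`(M+1)/2` = natural division
= ceiling of `M/2`), so `card S = cnt A (m-M) (m - (M+1)/2 + 1) ≥ (M - (M+1)/2 + 1)/D - 2 ≥ (M/2)/D - 2 ≥ M/(4D)` as
`M ≥ 8D`; the right end `m - (M+1)/2 + 1 ≤ m ≤ n` since `M ≥ 1`.
-/

set_option autoImplicit false

namespace Pool.H7.PP

theorem sl (D : ℝ) (hD : 1 ≤ D) (n m M : ℕ) (A : Finset ℕ) (hF : Few D A) (hM : Many D n A)
    (h1 : 8 * D ≤ M) (h2 : M ≤ m) (h3 : m ≤ n) :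
    ∃ S : Finset ℕ, Few D S ∧ (∀ c ∈ S, M ≤ 2 * c ∧ c ≤ M) ∧ (M : ℝ) / (4 * D) ≤ (S.card : ℝ) ∧
      ∀ c ∈ S, m - c ∈ A := by
  classical
  have hD0 : 0 < D := by linarith
  refine ⟨(Finset.range (M + 1)).filter (fun c => M ≤ 2 * c ∧ m - c ∈ A), ?_, ?_, ?_, ?_⟩
  · intro a b hab
    rcases Nat.lt_or_ge m a with ha | ha
    · have h4 : cnt ((Finset.range (M + 1)).filter (fun c => M ≤ 2 * c ∧ m - c ∈ A)) a b = 0 := by
        unfold cnt
        rw [Finset.card_eq_zero, Finset.filter_eq_empty_iff]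
        intro c hc
        rw [Finset.mem_filter, Finset.mem_range] at hc
        omega
      rw [h4]
      have h5 : (a : ℝ) ≤ b := by exact_mod_cast hab
      have : 0 ≤ ((b : ℝ) - a) / D := div_nonneg (by linarith) hD0.le
      push_cast
      linarith
    · have h4 : cnt ((Finset.range (M + 1)).filter (fun c => M ≤ 2 * c ∧ m - c ∈ A)) a b ≤
          cnt A (m + 1 - min b (m + 1)) (m + 1 - a) := by
        unfold cnt
        refine Finset.card_le_card_of_injOn (fun c => m - c) ?_ ?_
        · intro c hc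
          rw [Finset.mem_coe, Finset.mem_filter, Finset.mem_filter, Finset.mem_range] at hc
          rw [Finset.mem_coe, Finset.mem_filter]
          refine ⟨hc.1.2.2, ?_, ?_⟩
          · show m + 1 - min b (m + 1) ≤ m - c
            omega
          · show m - c < m + 1 - a
            omega
        · intro c hc d hd hcd
          rw [Finset.mem_coe, Finset.mem_filter, Finset.mem_filter, Finset.mem_range] at hc hd
          have hcd' : m - c = m - d := hcd
          omega
      have h5 := hF (m + 1 - min b (m + 1)) (m + 1 - a) (by omega)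
      have h6 : (((m + 1 - a : ℕ) : ℝ) - ((m + 1 - min b (m + 1) : ℕ) : ℝ)) ≤ (b : ℝ) - a := by
        have h7 : (m + 1 - a : ℕ) + a ≤ b + (m + 1 - min b (m + 1)) := by omega
        have h8 : ((m + 1 - a : ℕ) : ℝ) + a ≤ b + ((m + 1 - min b (m + 1) : ℕ) : ℝ) := by exact_mod_cast h7
        linarith
      have h9 : (cnt ((Finset.range (M + 1)).filter (fun c => M ≤ 2 * c ∧ m - c ∈ A)) a b : ℝ) ≤
          (cnt A (m + 1 - min b (m + 1)) (m + 1 - a) : ℝ) := by exact_mod_cast h4
      refine h9.trans (h5.trans ?_)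
      gcongr
  · intro c hc
    rw [Finset.mem_filter, Finset.mem_range] at hc
    omega
  · have hM1 : 1 ≤ M := by
      have : (1 : ℝ) ≤ M := by linarith
      exact_mod_cast this
    have h4 : cnt A (m - M) (m - (M + 1) / 2 + 1) ≤
        ((Finset.range (M + 1)).filter (fun c => M ≤ 2 * c ∧ m - c ∈ A)).card := by
      unfold cnt
      refine Finset.card_le_card_of_injOn (fun c => m - c) ?_ ?_
      · intro c hc
        rw [Finset.mem_coe, Finset.mem_filter] at hc
        rw [Finset.mem_coe, Finset.mem_filter, Finset.mem_range]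
        refine ⟨?_, ?_, ?_⟩
        · show m - c < M + 1
          omega
        · show M ≤ 2 * (m - c)
          omega
        · show m - (m - c) ∈ A
          have : m - (m - c) = c := by omega
          rw [this]
          exact hc.1
      · intro c hc d hd hcd
        rw [Finset.mem_coe, Finset.mem_filter] at hc hd
        have hcd' : m - c = m - d := hcd
        omega
    have h5 := hM (m - M) (m - (M + 1) / 2 + 1) (by omega) (by omega)
    have h6 : (M : ℝ) / 2 ≤ ((m - (M + 1) / 2 + 1 : ℕ) : ℝ) - ((m - M : ℕ) : ℝ) := by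
      have h7 : M + 2 * (m - M) ≤ 2 * (m - (M + 1) / 2 + 1) := by omega
      have h8 : (M : ℝ) + 2 * ((m - M : ℕ) : ℝ) ≤ 2 * ((m - (M + 1) / 2 + 1 : ℕ) : ℝ) := by exact_mod_cast h7
      linarith
    have h9 : (M : ℝ) / 2 / D - 2 ≤ (((m - (M + 1) / 2 + 1 : ℕ) : ℝ) - ((m - M : ℕ) : ℝ)) / D - 2 := by
      gcongr
    have h10 : (cnt A (m - M) (m - (M + 1) / 2 + 1) : ℝ) ≤
        (((Finset.range (M + 1)).filter (fun c => M ≤ 2 * c ∧ m - c ∈ A)).card : ℝ) := by exact_mod_cast h4
    refine le_trans ?_ (h9.trans (h5.trans h10))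
    have h11 : (M : ℝ) / 2 / D - M / (4 * D) = M / (4 * D) := by
      field_simp
      ring
    have h12 : 2 ≤ (M : ℝ) / (4 * D) := by
      rw [le_div_iff₀ (by positivity)]
      linarith
    linarith
  · intro c hc
    rw [Finset.mem_filter] at hc
    exact hc.2.2

end Pool.H7.PP
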