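import Pool.Agent.H7.PP.Pts
import Pool.Agent.H7.PP.Blk
import Pool.Agent.H7.PP.Ind
import Pool.Agent.H7.PP.Sl

/-!
# FAIL: one n, abstract sizes

All size conditions are hypotheses here; they are verified in NUM for large `n`.

PROOF. Let `Z0` be the finset with `J g L ≤ card Z0`; choose an injection `e : Fin J × (Fin g × Fin L) → Z0` (cardinality).
For `j` and `l` put `x i = e (j, (i, l i))` (injective), `M = max_i R (x i)` attained at some `i` (`g ≥ 1`), `m = n - ∑ (x i)^k`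
(`≥ n/2` by hypothesis `hx`, and `M ≤ n/2 ≤ m` by `hRn`), `S j l` from `sl`. `block` gives for every `j`
`p ≤ L^g c0/(8D) - (L^g)^2 9/D^2 ≤ P(∃ l, ..)` (`hp`). `blocks`: `P(∀ j l, ∑ r ∉ S j l) ≤ (1-p)^J`. If `n` is not represented
by `ω`, then for all `j, l`: `∑ i, r (x i) ω ∉ S j l` (else `c = ∑ i, r (x i) ω ∈ S j l`, `m - c ∈ A` is a sum of `u` powers
and `n = ∑ y^k + ∑ (x^k + r)`, with `x` injective and in `Z0`). Monotonicity of `P.real` (probability measure).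
-/

set_option autoImplicit false

open MeasureTheory ProbabilityTheory

namespace Pool.H7.PP

/-- `n` is represented at `ω` -/
def Rep {Ω : Type*} (k u g : ℕ) (Z : Set ℕ) (r : ℕ → Ω → ℕ) (n : ℕ) (ω : Ω) : Prop :=
  ∃ (y : Fin u → ℕ) (x : Fin g → ℕ), Function.Injective x ∧ (∀ i, x i ∈ Z) ∧
    n = ∑ i, y i ^ k + ∑ i, (x i ^ k + r (x i) ω)

theorem fail {Ω : Type*} [MeasurableSpace Ω] {P : Measure Ω} {R : ℕ → ℕ} {r : ℕ → Ω → ℕ} (hU : Unif P R r)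
    (k u g L J n : ℕ) (hg : 1 ≤ g) (D p : ℝ) (hD : 1 ≤ D) (hp1 : p ≤ 1) (A : Finset ℕ)
    (hA : ∀ a ∈ A, IsPw k u a) (hF : Few D A) (hM : Many D n A) (Z : Set ℕ) (Z0 : Finset ℕ) (hZ : ∀ x ∈ Z0, x ∈ Z)
    (hc : J * (g * L) ≤ Z0.card) (hx : ∀ x ∈ Z0, 2 * g * x ^ k ≤ n)
    (hR : ∀ x ∈ Z0, 8 * D ≤ R x) (hRn : ∀ x ∈ Z0, 2 * R x ≤ n)
    (hp : p ≤ (L : ℝ) ^ g * ((1 / (2 * (g : ℝ))) ^ (g - 1) / (8 * D)) - ((L : ℝ) ^ g) ^ 2 * (9 / D ^ 2)) :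
    P.real {ω | ¬ Rep k u g Z r n ω} ≤ (1 - p) ^ J := by
  have hprob := hU.prob
  haveI : Nonempty (Fin g) := ⟨⟨0, hg⟩⟩
  have hcard : Fintype.card (Fin J × (Fin g × Fin L)) ≤ Fintype.card Z0 := by
    rw [Fintype.card_prod, Fintype.card_prod, Fintype.card_fin, Fintype.card_fin, Fintype.card_fin,
      Fintype.card_coe]
    exact hc
  obtain ⟨e0⟩ := Function.Embedding.nonempty_of_card_le hcard
  have hmem : ∀ j q, (e0 (j, q) : ℕ) ∈ Z0 := fun j q => (e0 (j, q)).2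
  have hinj : ∀ a b, (e0 a : ℕ) = (e0 b : ℕ) → a = b := fun a b h => e0.injective (Subtype.ext h)
  have hsum : ∀ (j : Fin J) (l : Fin g → Fin L), 2 * ∑ i, (e0 (j, (i, l i)) : ℕ) ^ k ≤ n := by
    intro j l
    have h1 : ∑ i, 2 * g * (e0 (j, (i, l i)) : ℕ) ^ k ≤ ∑ _i : Fin g, n :=
      Finset.sum_le_sum fun i _ => hx _ (hmem _ _)
    rw [← Finset.mul_sum, Finset.sum_const, Finset.card_univ, Fintype.card_fin, smul_eq_mul] at h1
    have h2 : g * (2 * ∑ i, (e0 (j, (i, l i)) : ℕ) ^ k) ≤ g * n := by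
      calc g * (2 * ∑ i, (e0 (j, (i, l i)) : ℕ) ^ k) = 2 * g * ∑ i, (e0 (j, (i, l i)) : ℕ) ^ k := by ring
        _ ≤ g * n := h1
    exact Nat.le_of_mul_le_mul_left h2 (by omega)
  have hS : ∀ (j : Fin J) (l : Fin g → Fin L), ∃ S : Finset ℕ, Few D S ∧
      (∃ i, (∀ j', R (e0 (j, (j', l j'))) ≤ R (e0 (j, (i, l i)))) ∧
        (∀ c ∈ S, R (e0 (j, (i, l i))) ≤ 2 * c ∧ c ≤ R (e0 (j, (i, l i)))) ∧
        (R (e0 (j, (i, l i))) : ℝ) / (4 * D) ≤ (S.card : ℝ)) ∧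
      ∀ c ∈ S, c ≤ n - ∑ i, (e0 (j, (i, l i)) : ℕ) ^ k ∧ n - ∑ i, (e0 (j, (i, l i)) : ℕ) ^ k - c ∈ A := by
    intro j l
    obtain ⟨i, hi⟩ := Finite.exists_max (fun i => R (e0 (j, (i, l i)) : ℕ))
    have h1 := hsum j l
    have h2 := hRn _ (hmem j (i, l i))
    obtain ⟨S, a1, a2, a3, a4⟩ := sl D hD n (n - ∑ i, (e0 (j, (i, l i)) : ℕ) ^ k)
      (R (e0 (j, (i, l i)) : ℕ)) A hF hM (hR _ (hmem _ _)) (by omega) (by omega)
    refine ⟨S, a1, ⟨i, hi, a2, a3⟩, fun c hcS => ⟨?_, a4 c hcS⟩⟩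
    have h3 := (a2 c hcS).2
    omega
  choose S hS1 hS2 hS3 using hS
  have hb : ∀ j, p ≤ P.real {ω | ∃ l : Fin g → Fin L, ∑ i, r (e0 (j, (i, l i)) : ℕ) ω ∈ S j l} := by
    intro j
    refine hp.trans ?_
    exact block hU g L hg (fun q => (e0 (j, q) : ℕ)) (fun a b h => by
      have := hinj _ _ h
      exact (Prod.mk.inj this).2) D hD (fun q => hR _ (hmem _ _)) (S j) (hS1 j) (hS2 j)
  refine le_trans (measureReal_mono ?_) (blocks hU g L J (fun j q => (e0 (j, q) : ℕ)) (fun a b h => by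
    have h2 := hinj (a.1, a.2) (b.1, b.2) h
    exact h2) S p hp1 hb)
  intro ω hω
  rw [Set.mem_ofPred_eq] at hω ⊢
  intro j l hcon
  apply hω
  obtain ⟨h1, h2⟩ := hS3 j l _ hcon
  obtain ⟨y, hy⟩ := hA _ h2
  refine ⟨y, fun i => (e0 (j, (i, l i)) : ℕ), fun a b h => ?_, fun i => hZ _ (hmem _ _), ?_⟩
  · have h3 := hinj _ _ h
    exact (Prod.mk.inj (Prod.mk.inj h3).2).1
  · rw [← hy, Finset.sum_add_distrib]
    beta_reduce
    have := hsum j l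
    omega

end Pool.H7.PP
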