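import Pool.Agent.H7.PP.Bc

/-!
# T2 of MP_efcac8_nt: final form, product measure
-/

set_option autoImplicit false

open MeasureTheory ProbabilityTheory Filter

namespace Pool.H7.PP

theorem unif_pi (R : ℕ → ℕ) : Unif
    (Measure.infinitePi fun x : ℕ => (PMF.uniformOfFintype (Fin (R x + 1))).toMeasure) R
    (fun x (ω : ∀ x : ℕ, Fin (R x + 1)) => (ω x : ℕ)) := by
  have hX : ∀ x : ℕ, Measurable (fun v : Fin (R x + 1) => (v : ℕ)) := fun x => measurable_from_top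
  refine ⟨inferInstance, ?_, ?_, ?_⟩
  · intro x
    exact (hX x).comp (measurable_pi_apply x)
  · exact iIndepFun_infinitePi hX
  · intro x v hv
    have hms : MeasurableSet {w : Fin (R x + 1) | (w : ℕ) = v} := MeasurableSet.of_discrete
    have h1 : (Measure.infinitePi (fun x => (PMF.uniformOfFintype (Fin (R x + 1))).toMeasure))
        {ω : ∀ x : ℕ, Fin (R x + 1) | (ω x : ℕ) = v} =
        (PMF.uniformOfFintype (Fin (R x + 1))).toMeasure {w : Fin (R x + 1) | (w : ℕ) = v} := by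
      have h2 := Measure.infinitePi_map_eval
        (fun x => (PMF.uniformOfFintype (Fin (R x + 1))).toMeasure) x
      rw [← h2, Measure.map_apply (measurable_pi_apply x) hms]
      rfl
    rw [Measure.real, h1]
    have h3 : {w : Fin (R x + 1) | (w : ℕ) = v} = {⟨v, Nat.lt_succ_of_le hv⟩} := by
      ext w
      simp [Fin.ext_iff]
    rw [h3, PMF.toMeasure_apply_singleton _ _ (MeasurableSet.of_discrete), PMF.uniformOfFintype_apply]
    rw [Fintype.card_fin, ENNReal.toReal_inv, ENNReal.toReal_natCast]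
    push_cast
    rw [one_div]

theorem final (k u g : ℕ) (hk : 2 ≤ k) (κ om om' : ℝ)
    (h1 : (k : ℝ) * (1 - 1 / (k : ℝ)) ^ u < om) (h2 : om' < k)
    (h3 : (k : ℝ) * (1 - 1 / (k : ℝ)) ^ u < g * κ) (Z : Set ℕ)
    (hZ : ∀ᶠ Q : ℕ in atTop, (Q : ℝ) ^ κ ≤ ({x : ℕ | x ∈ Z ∧ Q < x ∧ x ≤ 2 * Q}.ncard : ℝ)) (R : ℕ → ℕ)
    (hR : ∀ᶠ x : ℕ in atTop, x ∈ Z → (x : ℝ) ^ om ≤ R x ∧ (R x : ℝ) ≤ (x : ℝ) ^ om') :
    ∀ᵐ r : (∀ x : ℕ, Fin (R x + 1)) ∂(Measure.infinitePi fun x : ℕ =>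
        (PMF.uniformOfFintype (Fin (R x + 1))).toMeasure),
      ∃ N : ℕ, ∀ n : ℕ, N ≤ n → ∃ (y : Fin u → ℕ) (x : Fin g → ℕ), Function.Injective x ∧ (∀ i, x i ∈ Z) ∧
        n = ∑ i, y i ^ k + ∑ i, (x i ^ k + (r (x i) : ℕ)) := by
  have h := bc k u g κ om om' hk h1 h2 h3 Z hZ R hR (unif_pi R)
  filter_upwards [h] with r hr
  obtain ⟨N, hN⟩ := eventually_atTop.1 hr
  exact ⟨N, fun n hn => hN n hn⟩

end Pool.H7.PP
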