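import Pool.Agent.H7.PP.Defs

/-!
# ONE: one random variable, and conditioning on finitely many others

PROOF. `one_zero`: `∑_{v ≤ R z} P(r z = v) = 1` (uniform) and the events are disjoint measurable, so the complement
`{R z < r z}` has probability 0. `one_le`: `{r z + s ∈ S}` is contained in `{R z < r z}` together with the union over the
`c ∈ S` with `s ≤ c < s + R z + 1` of `{r z = c - s}`; so its probability is at most `cnt S s (s + R z + 1) / (R z + 1)
≤ ((R z + 1)/D + 2)/(R z + 1) ≤ 3/D` (`D ≤ R z + 1`). `one_ge`: `S ⊆ [s, s + R z]`: the events `{r z = c - s}`, `c ∈ S`, are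
disjoint and contained in `{r z + s ∈ S}`.
`cond_le`, `le_cond`: `Y ω = (fun w : F => r w ω)` takes values in the countable discrete space `F → ℕ`; `r z` and `Y` are
independent (`iIndepFun.indepFun_finset {z} F` composed with the evaluation, or directly). The event is the disjoint union
over `y` (countable) of `{r z + s y ∈ S} ∩ {Y = y}`, `y ∈ B`; by independence each has probability
`P(r z + s y ∈ S) P(Y = y)`; sum (`measure_iUnion`, `tsum`), or use `indepFun_iff_map_prod_eq_prod_map_map` and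
`Measure.prod_apply`.
-/

set_option autoImplicit false

open MeasureTheory ProbabilityTheory

namespace Pool.H7.PP

theorem one_zero {Ω : Type*} [MeasurableSpace Ω] {P : Measure Ω} {R : ℕ → ℕ} {r : ℕ → Ω → ℕ} (hU : Unif P R r)
    (z : ℕ) : P.real {ω | R z < r z ω} = 0 := by
  have hprob := hU.prob
  have hm : ∀ v : ℕ, MeasurableSet {ω | r z ω = v} := fun v => hU.meas z (measurableSet_singleton v)
  have h1 : {ω | R z < r z ω}ᶜ = ⋃ v ∈ Finset.range (R z + 1), {ω | r z ω = v} := by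
    ext ω
    simp
  have h2 : P.real (⋃ v ∈ Finset.range (R z + 1), {ω | r z ω = v}) = 1 := by
    rw [measureReal_biUnion_finset]
    · rw [Finset.sum_congr rfl (fun v hv => hU.unif z v (by
        rw [Finset.mem_range] at hv
        omega))]
      rw [Finset.sum_const, Finset.card_range]
      have : ((R z : ℝ) + 1) ≠ 0 := by positivity
      simp only [nsmul_eq_mul]
      push_cast
      field_simp
    · intro a _ b _ hab
      refine Set.disjoint_left.mpr fun ω h1 h2 => hab ?_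
      rw [Set.mem_ofPred_eq] at h1 h2
      rw [← h1, ← h2]
    · intro v _
      exact hm v
  have hms : MeasurableSet {ω | R z < r z ω} := hU.meas z (measurableSet_Ioi (a := R z))
  have h3 := probReal_compl_eq_one_sub (μ := P) hms
  rw [h1, h2] at h3
  linarith

theorem one_le {Ω : Type*} [MeasurableSpace Ω] {P : Measure Ω} {R : ℕ → ℕ} {r : ℕ → Ω → ℕ} (hU : Unif P R r)
    (z : ℕ) (D : ℝ) (hD : 1 ≤ D) (hR : D ≤ (R z : ℝ) + 1) (S : Finset ℕ) (hS : Few D S) (s : ℕ) :
    P.real {ω | r z ω + s ∈ S} ≤ 3 / D := by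
  have hprob := hU.prob
  have hD0 : 0 < D := by linarith
  have hR0 : (0 : ℝ) < (R z : ℝ) + 1 := by positivity
  set T := S.filter (fun c => s ≤ c ∧ c < s + R z + 1) with hT
  have h1 : {ω | r z ω + s ∈ S} ⊆ {ω | R z < r z ω} ∪ ⋃ c ∈ T, {ω | r z ω = c - s} := by
    intro ω hω
    rw [Set.mem_ofPred_eq] at hω
    by_cases h : R z < r z ω
    · exact Or.inl h
    · right
      simp only [Set.mem_iUnion, Set.mem_ofPred_eq]
      refine ⟨r z ω + s, ?_, by omega⟩
      rw [hT, Finset.mem_filter]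
      exact ⟨hω, by omega, by omega⟩
  have h2 : P.real (⋃ c ∈ T, {ω | r z ω = c - s}) ≤ (T.card : ℝ) * (1 / ((R z : ℝ) + 1)) := by
    refine (measureReal_biUnion_finset_le T _).trans ?_
    rw [Finset.sum_congr rfl (fun c hc => hU.unif z (c - s) (by
      rw [hT, Finset.mem_filter] at hc
      omega))]
    rw [Finset.sum_const, nsmul_eq_mul]
  have h3 : (T.card : ℝ) ≤ ((R z : ℝ) + 1) / D + 2 := by
    have := hS s (s + R z + 1) (by omega)
    unfold cnt at this
    rw [← hT] at this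
    push_cast at this
    have h4 : ((s : ℝ) + R z + 1 - s) = (R z : ℝ) + 1 := by ring
    rw [h4] at this
    exact this
  calc P.real {ω | r z ω + s ∈ S} ≤ P.real ({ω | R z < r z ω} ∪ ⋃ c ∈ T, {ω | r z ω = c - s}) :=
        measureReal_mono h1
    _ ≤ P.real {ω | R z < r z ω} + P.real (⋃ c ∈ T, {ω | r z ω = c - s}) := measureReal_union_le _ _
    _ ≤ 0 + (((R z : ℝ) + 1) / D + 2) * (1 / ((R z : ℝ) + 1)) := by
        rw [one_zero hU z]
        gcongr
        exact h2.trans (by gcongr)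
    _ = 1 / D + 2 / ((R z : ℝ) + 1) := by
        field_simp
        ring
    _ ≤ 1 / D + 2 / D := by gcongr
    _ = 3 / D := by ring

theorem one_ge {Ω : Type*} [MeasurableSpace Ω] {P : Measure Ω} {R : ℕ → ℕ} {r : ℕ → Ω → ℕ} (hU : Unif P R r)
    (z : ℕ) (S : Finset ℕ) (s : ℕ) (hS : ∀ c ∈ S, s ≤ c ∧ c ≤ s + R z) :
    (S.card : ℝ) / ((R z : ℝ) + 1) ≤ P.real {ω | r z ω + s ∈ S} := by
  have hprob := hU.prob
  have h1 : (⋃ c ∈ S, {ω | r z ω = c - s}) ⊆ {ω | r z ω + s ∈ S} := by
    intro ω hω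
    simp only [Set.mem_iUnion, Set.mem_ofPred_eq] at hω
    obtain ⟨c, hc, h⟩ := hω
    rw [Set.mem_ofPred_eq]
    have := (hS c hc).1
    have h3 : r z ω + s = c := by omega
    rw [h3]
    exact hc
  have h2 : P.real (⋃ c ∈ S, {ω | r z ω = c - s}) = (S.card : ℝ) * (1 / ((R z : ℝ) + 1)) := by
    rw [measureReal_biUnion_finset]
    · rw [Finset.sum_congr rfl (fun c hc => hU.unif z (c - s) (by
        have := hS c hc
        omega))]
      rw [Finset.sum_const, nsmul_eq_mul]
    · intro a ha b hb hab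
      refine Set.disjoint_left.mpr fun ω h1 h2 => hab ?_
      rw [Set.mem_ofPred_eq] at h1 h2
      have h3 := hS a ha
      have h4 := hS b hb
      omega
    · intro v _
      exact hU.meas z (measurableSet_singleton (v - s))
  have h3 := measureReal_mono (μ := P) h1
  rw [h2] at h3
  rw [div_eq_mul_one_div]
  exact h3

theorem law {Ω : Type*} [MeasurableSpace Ω] {P : Measure Ω} {R : ℕ → ℕ} {r : ℕ → Ω → ℕ} (hU : Unif P R r)
    (z : ℕ) (F : Finset ℕ) (hz : z ∉ F) : IndepFun (r z) (fun ω (w : F) => r w ω) P := by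
  have h := hU.indep.indepFun_finset {z} F (by
    rw [Finset.disjoint_singleton_left]
    exact hz) hU.meas
  have hm : Measurable (fun y : (({z} : Finset ℕ) → ℕ) => y ⟨z, Finset.mem_singleton_self z⟩) := by
    fun_prop
  have h2 := h.comp (φ := fun y : (({z} : Finset ℕ) → ℕ) => y ⟨z, Finset.mem_singleton_self z⟩)
    (ψ := fun y : (F → ℕ) => y) hm measurable_id
  exact h2

theorem key {Ω : Type*} [MeasurableSpace Ω] {P : Measure Ω} {R : ℕ → ℕ} {r : ℕ → Ω → ℕ} (hU : Unif P R r)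
    (z : ℕ) (F : Finset ℕ) (hz : z ∉ F) (C : Set (ℕ × (F → ℕ))) :
    P {ω | (r z ω, (fun w : F => r w ω)) ∈ C} =
      ∫⁻ y, P {ω | (r z ω, y) ∈ C} ∂(P.map (fun ω (w : F) => r w ω)) := by
  have hprob := hU.prob
  have hY : Measurable (fun ω (w : F) => r w ω) := measurable_pi_lambda _ (fun w => hU.meas w)
  have hC : MeasurableSet C := MeasurableSet.of_discrete
  have h1 := (indepFun_iff_map_prod_eq_prod_map_map (hU.meas z).aemeasurable hY.aemeasurable).1
    (law hU z F hz)
  have h2 : P {ω | (r z ω, (fun w : F => r w ω)) ∈ C} =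
      (P.map (fun ω => (r z ω, (fun w : F => r w ω)))) C := by
    rw [Measure.map_apply ((hU.meas z).prodMk hY) hC]
    rfl
  rw [h2, h1]
  have : IsProbabilityMeasure (P.map (r z)) := Measure.isProbabilityMeasure_map (hU.meas z).aemeasurable
  have : IsProbabilityMeasure (P.map (fun ω (w : F) => r w ω)) := Measure.isProbabilityMeasure_map hY.aemeasurable
  rw [Measure.prod_apply_symm hC]
  refine lintegral_congr fun y => ?_
  rw [Measure.map_apply (hU.meas z) MeasurableSet.of_discrete]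
  rfl

theorem cond_le {Ω : Type*} [MeasurableSpace Ω] {P : Measure Ω} {R : ℕ → ℕ} {r : ℕ → Ω → ℕ} (hU : Unif P R r)
    (z : ℕ) (F : Finset ℕ) (hz : z ∉ F) (s : (F → ℕ) → ℕ) (B : Set (F → ℕ)) (S : Finset ℕ) (q : ℝ)
    (hq : ∀ t : ℕ, P.real {ω | r z ω + t ∈ S} ≤ q) :
    P.real {ω | r z ω + s (fun w => r w ω) ∈ S ∧ (fun w : F => r w ω) ∈ B} ≤
      q * P.real {ω | (fun w : F => r w ω) ∈ B} := by
  have hprob := hU.prob
  have hY : Measurable (fun ω (w : F) => r w ω) := measurable_pi_lambda _ (fun w => hU.meas w)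
  have hq0 : 0 ≤ q := le_trans measureReal_nonneg (hq 0)
  have h1 := key hU z F hz {c | c.1 + s c.2 ∈ S ∧ c.2 ∈ B}
  have h2 : ∀ y : F → ℕ, P {ω | (r z ω, y) ∈ {c : ℕ × (F → ℕ) | c.1 + s c.2 ∈ S ∧ c.2 ∈ B}} ≤
      B.indicator (fun _ => ENNReal.ofReal q) y := by
    intro y
    by_cases hy : y ∈ B
    · rw [Set.indicator_of_mem hy]
      have h3 : {ω | (r z ω, y) ∈ {c : ℕ × (F → ℕ) | c.1 + s c.2 ∈ S ∧ c.2 ∈ B}} =
          {ω | r z ω + s y ∈ S} := by
        ext ω
        simp [hy]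
      rw [h3]
      have h4 := hq (s y)
      rw [Measure.real] at h4
      exact (ENNReal.le_ofReal_iff_toReal_le (measure_ne_top P _) hq0).2 h4
    · have h3 : {ω | (r z ω, y) ∈ {c : ℕ × (F → ℕ) | c.1 + s c.2 ∈ S ∧ c.2 ∈ B}} = ∅ := by
        ext ω
        simp [hy]
      rw [h3, measure_empty]
      exact zero_le
  have h3 : P {ω | (r z ω, (fun w : F => r w ω)) ∈ {c : ℕ × (F → ℕ) | c.1 + s c.2 ∈ S ∧ c.2 ∈ B}} ≤
      ENNReal.ofReal q * P {ω | (fun w : F => r w ω) ∈ B} := by
    rw [h1]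
    refine (lintegral_mono h2).trans ?_
    rw [lintegral_indicator MeasurableSet.of_discrete, setLIntegral_const,
      Measure.map_apply hY MeasurableSet.of_discrete]
    exact le_of_eq rfl
  have h4 : P {ω | r z ω + s (fun w => r w ω) ∈ S ∧ (fun w : F => r w ω) ∈ B} ≤
      ENNReal.ofReal q * P {ω | (fun w : F => r w ω) ∈ B} := h3
  rw [Measure.real, Measure.real]
  have h5 := ENNReal.toReal_mono (ENNReal.mul_ne_top ENNReal.ofReal_ne_top (measure_ne_top P _)) h4
  rwa [ENNReal.toReal_mul, ENNReal.toReal_ofReal hq0] at h5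

theorem le_cond {Ω : Type*} [MeasurableSpace Ω] {P : Measure Ω} {R : ℕ → ℕ} {r : ℕ → Ω → ℕ} (hU : Unif P R r)
    (z : ℕ) (F : Finset ℕ) (hz : z ∉ F) (s : (F → ℕ) → ℕ) (B : Set (F → ℕ)) (S : Finset ℕ) (q : ℝ)
    (hq : ∀ y ∈ B, q ≤ P.real {ω | r z ω + s y ∈ S}) :
    q * P.real {ω | (fun w : F => r w ω) ∈ B} ≤
      P.real {ω | r z ω + s (fun w => r w ω) ∈ S ∧ (fun w : F => r w ω) ∈ B} := by
  have hprob := hU.prob
  rcases lt_or_ge q 0 with hq0 | hq0
  · exact (mul_nonpos_of_nonpos_of_nonneg hq0.le measureReal_nonneg).trans measureReal_nonneg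
  have hY : Measurable (fun ω (w : F) => r w ω) := measurable_pi_lambda _ (fun w => hU.meas w)
  have h1 := key hU z F hz {c | c.1 + s c.2 ∈ S ∧ c.2 ∈ B}
  have h2 : ∀ y : F → ℕ, B.indicator (fun _ => ENNReal.ofReal q) y ≤
      P {ω | (r z ω, y) ∈ {c : ℕ × (F → ℕ) | c.1 + s c.2 ∈ S ∧ c.2 ∈ B}} := by
    intro y
    by_cases hy : y ∈ B
    · rw [Set.indicator_of_mem hy]
      have h3 : {ω | (r z ω, y) ∈ {c : ℕ × (F → ℕ) | c.1 + s c.2 ∈ S ∧ c.2 ∈ B}} =
          {ω | r z ω + s y ∈ S} := by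
        ext ω
        simp [hy]
      rw [h3]
      have h4 := hq y hy
      rw [Measure.real] at h4
      exact ENNReal.ofReal_le_of_le_toReal h4
    · rw [Set.indicator_of_notMem hy]
      exact zero_le
  have h3 : ENNReal.ofReal q * P {ω | (fun w : F => r w ω) ∈ B} ≤
      P {ω | (r z ω, (fun w : F => r w ω)) ∈ {c : ℕ × (F → ℕ) | c.1 + s c.2 ∈ S ∧ c.2 ∈ B}} := by
    rw [h1]
    refine le_trans ?_ (lintegral_mono h2)
    rw [lintegral_indicator MeasurableSet.of_discrete, setLIntegral_const,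
      Measure.map_apply hY MeasurableSet.of_discrete]
    exact le_of_eq rfl
  have h4 : ENNReal.ofReal q * P {ω | (fun w : F => r w ω) ∈ B} ≤
      P {ω | r z ω + s (fun w => r w ω) ∈ S ∧ (fun w : F => r w ω) ∈ B} := h3
  rw [Measure.real, Measure.real]
  have h5 := ENNReal.toReal_mono (measure_ne_top P _) h4
  rwa [ENNReal.toReal_mul, ENNReal.toReal_ofReal hq0] at h5

end Pool.H7.PP
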