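import Pool.Agent.H7.PP.One

/-!
# PAIR: two tuples which differ in a coordinate are hit together with probability at most (3/D)^2

PROOF. Let `F = (Finset.univ.image x ∪ Finset.univ.image x') .erase (x i)`. `x i ∉ F`. For `y : F → ℕ` let `s y` be the sum over
`j ≠ i` of `y (x j)` (`x j ∈ F` since `x` is injective) and `B = {y : ∑ j, y (x' j) ∈ S'}` (`x' j ≠ x i`, so `x' j ∈ F`); to
avoid dependent types extend `y` by 0: `y' w = if h : w ∈ F then y ⟨w, h⟩ else 0`. `cond_le` with `q = 3/D` (`one_le`):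
`P(both) ≤ (3/D) P(∑ j, r (x' j) ∈ S')`. Second `cond_le` with `z = x' i`, `F' = (univ.image x').erase (x' i)`, `B' = univ`:
`P(∑ j, r (x' j) ∈ S') ≤ 3/D` (probability measure: the last factor is at most 1).
-/

set_option autoImplicit false

open MeasureTheory ProbabilityTheory

namespace Pool.H7.PP

theorem sum_le {Ω : Type*} [MeasurableSpace Ω] {P : Measure Ω} {R : ℕ → ℕ} {r : ℕ → Ω → ℕ} (hU : Unif P R r)
    {g : ℕ} (x : Fin g → ℕ) (hx : Function.Injective x) (i : Fin g) (F : Finset ℕ) (hF : x i ∉ F)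
    (hF2 : ∀ j, j ≠ i → x j ∈ F) (D : ℝ) (hD : 1 ≤ D)
    (hR : D ≤ (R (x i) : ℝ) + 1) (S : Finset ℕ) (hS : Few D S) (B : Set (F → ℕ)) :
    P.real {ω | ∑ j, r (x j) ω ∈ S ∧ (fun w : F => r w ω) ∈ B} ≤
      3 / D * P.real {ω | (fun w : F => r w ω) ∈ B} := by
  classical
  have h := cond_le hU (x i) F hF
    (fun y => ∑ j ∈ Finset.univ.erase i, (if h : x j ∈ F then y ⟨x j, h⟩ else 0)) B S (3 / D)
    (fun t => one_le hU (x i) D hD hR S hS t)
  refine le_trans (le_of_eq ?_) h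
  congr 1
  ext ω
  have h2 : ∑ j, r (x j) ω = r (x i) ω +
      ∑ j ∈ Finset.univ.erase i, (if h : x j ∈ F then (fun w : F => r w ω) ⟨x j, h⟩ else 0) := by
    rw [← Finset.add_sum_erase Finset.univ (fun j => r (x j) ω) (Finset.mem_univ i)]
    congr 1
    refine Finset.sum_congr rfl fun j hj => ?_
    rw [dif_pos (hF2 j (Finset.ne_of_mem_erase hj))]
  simp only [Set.mem_ofPred_eq]
  rw [h2]

theorem pair_le {Ω : Type*} [MeasurableSpace Ω] {P : Measure Ω} {R : ℕ → ℕ} {r : ℕ → Ω → ℕ} (hU : Unif P R r)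
    {g : ℕ} (x x' : Fin g → ℕ) (hx : Function.Injective x) (hx' : Function.Injective x') (i : Fin g)
    (h1 : ∀ j, x' j ≠ x i) (D : ℝ) (hD : 1 ≤ D) (hR : D ≤ (R (x i) : ℝ) + 1)
    (hR' : D ≤ (R (x' i) : ℝ) + 1) (S S' : Finset ℕ) (hS : Few D S) (hS' : Few D S') :
    P.real {ω | ∑ j, r (x j) ω ∈ S ∧ ∑ j, r (x' j) ω ∈ S'} ≤ (3 / D) ^ 2 := by
  classical
  have hprob := hU.prob
  have hD0 : 0 < D := by linarith
  set F : Finset ℕ := (Finset.univ.image x ∪ Finset.univ.image x').erase (x i) with hFd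
  have hF : x i ∉ F := by
    rw [hFd]
    exact Finset.notMem_erase _ _
  have hF2 : ∀ j, j ≠ i → x j ∈ F := by
    intro j hj
    rw [hFd, Finset.mem_erase]
    exact ⟨fun h => hj (hx h), Finset.mem_union_left _ (Finset.mem_image_of_mem _ (Finset.mem_univ _))⟩
  have hF3 : ∀ j, x' j ∈ F := by
    intro j
    rw [hFd, Finset.mem_erase]
    exact ⟨h1 j, Finset.mem_union_right _ (Finset.mem_image_of_mem _ (Finset.mem_univ _))⟩
  have h2 := sum_le hU x hx i F hF hF2 D hD hR S hS {y | ∑ j, y ⟨x' j, hF3 j⟩ ∈ S'}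
  have h3 := sum_le hU x' hx' i (Finset.univ.image x' |>.erase (x' i)) (Finset.notMem_erase _ _)
    (fun j hj => by
      rw [Finset.mem_erase]
      exact ⟨fun h => hj (hx' h), Finset.mem_image_of_mem _ (Finset.mem_univ _)⟩) D hD hR' S' hS' Set.univ
  have h4 : P.real {ω | ∑ j, r (x' j) ω ∈ S'} ≤ 3 / D := by
    refine le_trans (le_of_eq ?_) (h3.trans ?_)
    · congr 1
      ext ω
      simp
    · have := measureReal_le_one (μ := P)
        (s := {ω | (fun w : ((Finset.univ.image x').erase (x' i) : Finset ℕ) => r w ω) ∈ Set.univ})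
      have h5 : 0 ≤ 3 / D := by positivity
      nlinarith
  refine le_trans (le_trans (le_of_eq ?_) h2) ?_
  · rfl
  · have h5 : 0 ≤ 3 / D := by positivity
    have h6 : P.real {ω | (fun w : F => r w ω) ∈ {y : F → ℕ | ∑ j, y ⟨x' j, hF3 j⟩ ∈ S'}} ≤ 3 / D := h4
    rw [sq]
    exact mul_le_mul_of_nonneg_left h6 h5

end Pool.H7.PP
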