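import Pool.Agent.H7.PP.Defs
import Pool.Agent.H48.Wt.Gap

/-!
# PTS: a net of sums of u genuine k-th powers

PROOF. `Pool.H48.Wt.greedy k u hk` gives `K0 > 0` with: for real `t ≥ 0` there is `s ∈ Pw k u`, `s ≤ t`,
`t - s ≤ K0 (1+t)^θ`, `θ = (1-1/k)^u ∈ [0,1]`. Put `K = max 1 (4 K0)`; for `1 ≤ n` and `K n^θ ≤ D` we have for every
`t ≤ n`: `K0 (1+t)^θ ≤ K0 (2n)^θ ≤ 2 K0 n^θ ≤ D/2`. For `m : ℕ` with `(m+1) D ≤ n` take `t = m D + D/4`... any `t` in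
`[m D + D/2, (m+1) D)`, e.g. `t = m D + (3/4) D`: the sum `s` of `u` powers with `s ≤ t`, `t - s ≤ D/2` satisfies
`m D ≤ s < (m+1) D`; it is a natural number `β m` with `IsPw k u (β m)` (cast the sum). `A` = image of `β` on
`{m : (m+1) D ≤ n}` = `Finset.range ⌊n/D⌋₊` (`(m+1) D ≤ n ↔ m + 1 ≤ ⌊n/D⌋₊`, `D > 0`).
Few: if `β m ∈ [a,b)` then `m D < b`, `(m+1) D > a`, so `m` lies in an open interval of length `(b-a)/D + 1`, which
contains at most `(b-a)/D + 2` integers; `cnt` of an image is at most the number of such `m`.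
Many: for `b ≤ n` all `m` with `a/D ≤ m`, `m + 1 ≤ b/D` have `β m ∈ [a,b)` and `β` is injective on them (different cells);
their number is at least `b/D - a/D - 2`.
-/

set_option autoImplicit false

namespace Pool.H7.PP

private theorem pts_beta (k u : ℕ) (hk : 1 ≤ k) : ∃ K : ℝ, 1 ≤ K ∧ ∀ n : ℕ, 1 ≤ n → ∀ D : ℝ,
    K * (n : ℝ) ^ ((1 - 1 / (k : ℝ)) ^ u) ≤ D → 1 ≤ D ∧ ∃ β : ℕ → ℕ, ∀ m : ℕ,
    ((m : ℝ) + 1) * D ≤ n → IsPw k u (β m) ∧ (m : ℝ) * D ≤ β m ∧ (β m : ℝ) < ((m : ℝ) + 1) * D := by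
  obtain ⟨K0, hK0, hg⟩ := Pool.H48.Wt.greedy k u hk
  have hk0 : (0 : ℝ) < k := by exact_mod_cast (by omega : 0 < k)
  have hθ0 : 0 ≤ 1 - 1 / (k : ℝ) := by
    have : 1 / (k : ℝ) ≤ 1 := by
      rw [div_le_one hk0]
      exact_mod_cast hk
    linarith
  have hθ1 : 1 - 1 / (k : ℝ) ≤ 1 := by
    have : 0 ≤ 1 / (k : ℝ) := by positivity
    linarith
  set θ : ℝ := (1 - 1 / (k : ℝ)) ^ u with hθ
  have h0 : 0 ≤ θ := pow_nonneg hθ0 u
  have h1 : θ ≤ 1 := pow_le_one₀ hθ0 hθ1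
  refine ⟨max 1 (4 * K0), le_max_left _ _, fun n hn D hD => ?_⟩
  have hn1 : (1 : ℝ) ≤ n := by exact_mod_cast hn
  have hn0 : (0 : ℝ) < n := by linarith
  have hnθ : 1 ≤ (n : ℝ) ^ θ := Real.one_le_rpow hn1 h0
  have hD1 : 1 ≤ D := by
    refine le_trans ?_ hD
    have : (1 : ℝ) ≤ max 1 (4 * K0) := le_max_left _ _
    nlinarith
  have hD4 : 4 * K0 * (n : ℝ) ^ θ ≤ D :=
    (mul_le_mul_of_nonneg_right (le_max_right _ _) (by linarith)).trans hD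
  refine ⟨hD1, ?_⟩
  have hex : ∀ m : ℕ, ∃ b : ℕ, ((m : ℝ) + 1) * D ≤ n → IsPw k u b ∧ (m : ℝ) * D ≤ b ∧
      (b : ℝ) < ((m : ℝ) + 1) * D := by
    intro m
    by_cases hm : ((m : ℝ) + 1) * D ≤ n
    · obtain ⟨s, ⟨y, hy⟩, h2, h3⟩ := hg (m * D + 3 / 4 * D) (by positivity)
      have h4 : 1 + (m * D + 3 / 4 * D) ≤ 2 * n := by nlinarith
      have h5 : (1 + (m * D + 3 / 4 * D)) ^ θ ≤ 2 * (n : ℝ) ^ θ := by
        calc (1 + (m * D + 3 / 4 * D)) ^ θ ≤ (2 * (n : ℝ)) ^ θ :=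
              Real.rpow_le_rpow (by positivity) h4 h0
          _ = 2 ^ θ * (n : ℝ) ^ θ := Real.mul_rpow (by norm_num) hn0.le
          _ ≤ 2 * (n : ℝ) ^ θ := by
              apply mul_le_mul_of_nonneg_right _ (by linarith)
              calc (2 : ℝ) ^ θ ≤ 2 ^ (1 : ℝ) := Real.rpow_le_rpow_of_exponent_le (by norm_num) h1
                _ = 2 := Real.rpow_one 2
      have h6 : K0 * (1 + (m * D + 3 / 4 * D)) ^ θ ≤ D / 2 := by
        calc K0 * (1 + (m * D + 3 / 4 * D)) ^ θ ≤ K0 * (2 * (n : ℝ) ^ θ) :=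
              mul_le_mul_of_nonneg_left h5 hK0.le
          _ = 4 * K0 * (n : ℝ) ^ θ / 2 := by ring
          _ ≤ D / 2 := by linarith
      have h7 : s = ((∑ i, y i ^ k : ℕ) : ℝ) := by
        rw [hy]
        push_cast
        rfl
      refine ⟨∑ i, y i ^ k, fun _ => ⟨⟨y, rfl⟩, ?_, ?_⟩⟩
      · rw [← h7]
        nlinarith
      · rw [← h7]
        nlinarith
    · exact ⟨0, fun h => absurd h hm⟩
  choose β hβ using hex
  exact ⟨β, hβ⟩

theorem pts (k u : ℕ) (hk : 1 ≤ k) : ∃ K : ℝ, 1 ≤ K ∧ ∀ n : ℕ, 1 ≤ n → ∀ D : ℝ,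
    K * (n : ℝ) ^ ((1 - 1 / (k : ℝ)) ^ u) ≤ D →
    ∃ A : Finset ℕ, (∀ a ∈ A, IsPw k u a) ∧ Few D A ∧ Many D n A := by
  obtain ⟨K, hK, h⟩ := pts_beta k u hk
  refine ⟨K, hK, fun n hn D hD => ?_⟩
  obtain ⟨hD1, β, hβ⟩ := h n hn D hD
  have hD0 : 0 < D := by linarith
  have hN : ∀ m : ℕ, m < ⌊(n : ℝ) / D⌋₊ → ((m : ℝ) + 1) * D ≤ n := by
    intro m hm
    have h1 : ((m : ℝ) + 1) ≤ n / D := by
      have h2 : ((m + 1 : ℕ) : ℝ) ≤ ⌊(n : ℝ) / D⌋₊ := by exact_mod_cast hm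
      have h3 : (⌊(n : ℝ) / D⌋₊ : ℝ) ≤ n / D := Nat.floor_le (by positivity)
      push_cast at h2
      linarith
    rwa [le_div_iff₀ hD0] at h1
  refine ⟨(Finset.range ⌊(n : ℝ) / D⌋₊).image β, ?_, ?_, ?_⟩
  · intro a ha
    obtain ⟨m, hm, rfl⟩ := Finset.mem_image.1 ha
    exact (hβ m (hN m (Finset.mem_range.1 hm))).1
  · intro a b hab
    have h1 : cnt ((Finset.range ⌊(n : ℝ) / D⌋₊).image β) a b ≤
        (Finset.Ico ⌊(a : ℝ) / D⌋₊ ⌈(b : ℝ) / D⌉₊).card := by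
      unfold cnt
      have h2 : ((Finset.range ⌊(n : ℝ) / D⌋₊).image β).filter (fun c => a ≤ c ∧ c < b) ⊆
          (Finset.Ico ⌊(a : ℝ) / D⌋₊ ⌈(b : ℝ) / D⌉₊).image β := by
        intro c hc
        obtain ⟨hc1, hc2, hc3⟩ := Finset.mem_filter.1 hc
        obtain ⟨m, hm, rfl⟩ := Finset.mem_image.1 hc1
        obtain ⟨-, h3, h4⟩ := hβ m (hN m (Finset.mem_range.1 hm))
        refine Finset.mem_image.2 ⟨m, Finset.mem_Ico.2 ⟨?_, ?_⟩, rfl⟩
        · have h5 : (a : ℝ) / D < (m : ℝ) + 1 := by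
            rw [div_lt_iff₀ hD0]
            exact lt_of_le_of_lt (by exact_mod_cast hc2) h4
          have h6 : ⌊(a : ℝ) / D⌋₊ < m + 1 :=
            (Nat.floor_lt (by positivity)).2 (by push_cast; exact h5)
          omega
        · rw [Nat.lt_ceil, lt_div_iff₀ hD0]
          exact lt_of_le_of_lt h3 (by exact_mod_cast hc3)
      exact (Finset.card_le_card h2).trans Finset.card_image_le
    have h2 : (((Finset.Ico ⌊(a : ℝ) / D⌋₊ ⌈(b : ℝ) / D⌉₊).card : ℕ) : ℝ) ≤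
        ((b : ℝ) - a) / D + 2 := by
      rw [Nat.card_Ico]
      have h3 : (⌈(b : ℝ) / D⌉₊ : ℝ) < (b : ℝ) / D + 1 := Nat.ceil_lt_add_one (by positivity)
      have h4 : (a : ℝ) / D < ⌊(a : ℝ) / D⌋₊ + 1 := Nat.lt_floor_add_one _
      have h5 : ((b : ℝ) - a) / D = b / D - a / D := sub_div _ _ _
      have h6 : (0 : ℝ) ≤ ((b : ℝ) - a) / D := by
        apply div_nonneg _ hD0.le
        have : (a : ℝ) ≤ b := by exact_mod_cast hab
        linarith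
      rcases le_total ⌊(a : ℝ) / D⌋₊ ⌈(b : ℝ) / D⌉₊ with h7 | h7
      · rw [Nat.cast_sub h7]
        linarith
      · rw [Nat.sub_eq_zero_of_le h7]
        push_cast
        linarith
    exact le_trans (by exact_mod_cast h1) h2
  · intro a b hab hbn
    have h1 : (Finset.Ico ⌈(a : ℝ) / D⌉₊ ⌊(b : ℝ) / D⌋₊).card ≤
        cnt ((Finset.range ⌊(n : ℝ) / D⌋₊).image β) a b := by
      unfold cnt
      have hmem : ∀ m ∈ Finset.Ico ⌈(a : ℝ) / D⌉₊ ⌊(b : ℝ) / D⌋₊, m < ⌊(n : ℝ) / D⌋₊ := by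
        intro m hm
        refine lt_of_lt_of_le (Finset.mem_Ico.1 hm).2 (Nat.floor_le_floor ?_)
        exact div_le_div_of_nonneg_right (by exact_mod_cast hbn) hD0.le
      refine Finset.card_le_card_of_injOn β ?_ ?_
      · intro m hm
        have hm' : m ∈ Finset.Ico ⌈(a : ℝ) / D⌉₊ ⌊(b : ℝ) / D⌋₊ := Finset.mem_coe.1 hm
        obtain ⟨-, h3, h4⟩ := hβ m (hN m (hmem m hm'))
        rw [Finset.mem_Ico] at hm'
        refine Finset.mem_coe.2 (Finset.mem_filter.2 ⟨Finset.mem_image.2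
          ⟨m, Finset.mem_range.2 (hmem m (Finset.mem_coe.1 hm)), rfl⟩, ?_, ?_⟩)
        · have h5 : (a : ℝ) / D ≤ m := Nat.ceil_le.1 hm'.1
          rw [div_le_iff₀ hD0] at h5
          have : (a : ℝ) ≤ β m := h5.trans h3
          exact_mod_cast this
        · have h5 : ((m + 1 : ℕ) : ℝ) ≤ (b : ℝ) / D :=
            le_trans (by exact_mod_cast hm'.2) (Nat.floor_le (by positivity))
          rw [le_div_iff₀ hD0] at h5
          push_cast at h5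
          have : (β m : ℝ) < b := lt_of_lt_of_le h4 h5
          exact_mod_cast this
      · have hlt : ∀ m m' : ℕ, m < ⌊(n : ℝ) / D⌋₊ → m' < ⌊(n : ℝ) / D⌋₊ → m < m' → β m < β m' := by
          intro m m' h2 h3 h4
          obtain ⟨-, -, h5⟩ := hβ m (hN m h2)
          obtain ⟨-, h6, -⟩ := hβ m' (hN m' h3)
          have h7 : (m : ℝ) + 1 ≤ m' := by exact_mod_cast h4
          have h8 : (β m : ℝ) < β m' := by
            refine lt_of_lt_of_le h5 (le_trans ?_ h6)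
            exact mul_le_mul_of_nonneg_right h7 hD0.le
          exact_mod_cast h8
        intro m hm m' hm' heq
        have h2 := hmem m (Finset.mem_coe.1 hm)
        have h3 := hmem m' (Finset.mem_coe.1 hm')
        rcases lt_trichotomy m m' with h4 | h4 | h4
        · exact absurd heq (hlt m m' h2 h3 h4).ne
        · exact h4
        · exact absurd heq (hlt m' m h3 h2 h4).ne'
    have h2 : ((b : ℝ) - a) / D - 2 ≤
        (((Finset.Ico ⌈(a : ℝ) / D⌉₊ ⌊(b : ℝ) / D⌋₊).card : ℕ) : ℝ) := by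
      rw [Nat.card_Ico]
      have h3 : (⌈(a : ℝ) / D⌉₊ : ℝ) < (a : ℝ) / D + 1 := Nat.ceil_lt_add_one (by positivity)
      have h4 : (b : ℝ) / D < ⌊(b : ℝ) / D⌋₊ + 1 := Nat.lt_floor_add_one _
      have h5 : ((b : ℝ) - a) / D = b / D - a / D := sub_div _ _ _
      have h6 : (⌊(b : ℝ) / D⌋₊ : ℝ) - ⌈(a : ℝ) / D⌉₊ ≤ ((⌊(b : ℝ) / D⌋₊ - ⌈(a : ℝ) / D⌉₊ : ℕ) : ℝ) := by
        rw [sub_le_iff_le_add]
        have : ⌊(b : ℝ) / D⌋₊ ≤ ⌊(b : ℝ) / D⌋₊ - ⌈(a : ℝ) / D⌉₊ + ⌈(a : ℝ) / D⌉₊ := by omega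
        exact_mod_cast this
      linarith
    exact h2.trans (by exact_mod_cast h1)

end Pool.H7.PP
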